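import Pool.Agent.H78String.Polygon

set_option autoImplicit false

open MeasureTheory Set Metric
open scoped Real

namespace Pool.Agent.H78Sprawl

open Pool.Agent.H78String

/-- A norm on the Euclidean plane, as a plain function. -/
structure PNorm (N : E2 → ℝ) : Prop where
  cont : Continuous N
  smul : ∀ (c : ℝ) (z : E2), N (c • z) = |c| * N z
  add_le : ∀ z w : E2, N (z + w) ≤ N z + N w
  pos : ∀ z : E2, z ≠ 0 → 0 < N z

/-- The unit circle of the norm `N`, parametrised by the (normalised) area it sweeps. -/
structure Curve (N : E2 → ℝ) (x : ℝ → E2) : Prop where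
  norm : PNorm N
  cont : Continuous x
  unit : ∀ t, N (x t) = 1
  half : ∀ t, x (t + 1/2) = - x t
  pos : ∀ b c, b < c → c < b + 1/2 → 0 < det2 (x b) (x c)
  deriv : ∀ (p q : E2) (t : ℝ), det2 q (x t) ≠ 0 →
    HasDerivAt (fun s => det2 p (x s) / det2 q (x s)) (det2 q p / det2 q (x t) ^ 2) t

lemma det2_add_right (u v w : E2) : det2 u (v + w) = det2 u v + det2 u w := by
  simp [det2]; ring
lemma det2_sub_right (u v w : E2) : det2 u (v - w) = det2 u v - det2 u w := by
  simp [det2]; ring
lemma det2_sub_left (u v w : E2) : det2 (u - v) w = det2 u w - det2 v w := by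
  simp [det2]; ring
lemma det2_add_left (u v w : E2) : det2 (u + v) w = det2 u w + det2 v w := by
  simp [det2]; ring
lemma det2_smul_left (c : ℝ) (u v : E2) : det2 (c • u) v = c * det2 u v := by
  simp [det2]; ring
lemma det2_smul_right (c : ℝ) (u v : E2) : det2 u (c • v) = c * det2 u v := by
  simp [det2]; ring
lemma det2_neg_left (u v : E2) : det2 (-u) v = - det2 u v := by
  simp [det2]; ring
lemma det2_neg_right (u v : E2) : det2 u (-v) = - det2 u v := by
  simp [det2]; ring
lemma det2_self (u : E2) : det2 u u = 0 := by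
  simp [det2]; ring
lemma det2_swap (u v : E2) : det2 u v = - det2 v u := by
  simp [det2]; ring

lemma continuous_det2 {X : Type*} [TopologicalSpace X] {f g : X → E2} (hf : Continuous f)
    (hg : Continuous g) : Continuous fun t => det2 (f t) (g t) := by
  unfold det2
  fun_prop

namespace PNorm

variable {N : E2 → ℝ}

lemma zero (h : PNorm N) : N 0 = 0 := by
  have := h.smul 0 0
  simpa using this

lemma nonneg (h : PNorm N) (z : E2) : 0 ≤ N z := by
  by_cases hz : z = 0
  · rw [hz, h.zero]
  · exact (h.pos z hz).le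

lemma neg (h : PNorm N) (z : E2) : N (-z) = N z := by
  have := h.smul (-1) z
  simpa using this

lemma smul_nonneg (h : PNorm N) {c : ℝ} (hc : 0 ≤ c) (z : E2) : N (c • z) = c * N z := by
  rw [h.smul, abs_of_nonneg hc]

end PNorm

namespace Curve

variable {N : E2 → ℝ} {x : ℝ → E2}

lemma one (h : Curve N x) (t : ℝ) : x (t + 1) = x t := by
  have h1 := h.half t
  have h2 := h.half (t + 1/2)
  rw [h1, neg_neg] at h2
  rw [← h2]
  congr 1
  ring

/-- Expansion of a point in the basis formed by two points of the curve. -/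
lemma expand' {p q v : E2} (hD : det2 p q ≠ 0) :
    v = (det2 v q / det2 p q) • p + (det2 p v / det2 p q) • q := expand hD

lemma sum_ge_one (h : Curve N x) {a b c : ℝ} {α γ : ℝ} (hα : 0 ≤ α) (hγ : 0 ≤ γ)
    (he : x b = α • x a + γ • x c) : 1 ≤ α + γ := by
  have h1 := h.unit b
  rw [he] at h1
  have h2 := h.norm.add_le (α • x a) (γ • x c)
  rw [h.norm.smul_nonneg hα, h.norm.smul_nonneg hγ, h.unit, h.unit, h1] at h2
  linarith

/-- For `a < b < c < a + 1/2`, the point `x b` lies beyond the chord from `x a` to `x c`. -/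
lemma beyond (h : Curve N x) {a b c : ℝ} (hab : a ≤ b) (hbc : b ≤ c) (hac : a < c)
    (hc : c < a + 1/2) :
    det2 (x a) (x c) ≤ det2 (x a) (x b) + det2 (x b) (x c) := by
  have hD := h.pos a c hac hc
  have h1 : 0 ≤ det2 (x b) (x c) := by
    rcases hbc.lt_or_eq with h' | h'
    · exact (h.pos b c h' (by linarith)).le
    · rw [h', det2_self]
  have h2 : 0 ≤ det2 (x a) (x b) := by
    rcases hab.lt_or_eq with h' | h'
    · exact (h.pos a b h' (by linarith)).le
    · rw [h', det2_self]
  have h3 := h.sum_ge_one (a := a) (b := b) (c := c) (div_nonneg h1 hD.le) (div_nonneg h2 hD.le)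
    (expand' hD.ne')
  rw [← add_div, le_div_iff₀ hD] at h3
  linarith

lemma monotone_aux {f f' : ℝ → ℝ} {a b : ℝ} (hab : a ≤ b)
    (hf : ∀ t ∈ Icc a b, HasDerivAt f (f' t) t) (h' : ∀ t ∈ Icc a b, 1 ≤ f' t) :
    b - a ≤ f b - f a := by
  have h1 : MonotoneOn (fun t => f t - t) (Icc a b) := by
    apply monotoneOn_of_deriv_nonneg (convex_Icc a b)
    · intro t ht
      exact ((hf t ht).continuousAt.sub continuousAt_id).continuousWithinAt
    · intro t ht
      rw [interior_Icc] at ht
      exact (((hf t (Ioo_subset_Icc_self ht)).sub (hasDerivAt_id t)).differentiableAt).differentiableWithinAt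
    · intro t ht
      rw [interior_Icc] at ht
      have ht' := Ioo_subset_Icc_self ht
      rw [((hf t ht').fun_sub (hasDerivAt_id' t)).deriv]
      linarith [h' t ht']
  have := h1 (left_mem_Icc.2 hab) (right_mem_Icc.2 hab) hab
  simp only at this
  linarith

lemma monotone_aux' {f f' : ℝ → ℝ} {a b : ℝ} (hab : a ≤ b)
    (hf : ∀ t ∈ Icc a b, HasDerivAt f (f' t) t) (h' : ∀ t ∈ Icc a b, f' t ≤ 1) :
    f b - f a ≤ b - a := by
  have h1 : AntitoneOn (fun t => f t - t) (Icc a b) := by
    apply antitoneOn_of_deriv_nonpos (convex_Icc a b)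
    · intro t ht
      exact ((hf t ht).continuousAt.sub continuousAt_id).continuousWithinAt
    · intro t ht
      rw [interior_Icc] at ht
      exact (((hf t (Ioo_subset_Icc_self ht)).sub (hasDerivAt_id t)).differentiableAt).differentiableWithinAt
    · intro t ht
      rw [interior_Icc] at ht
      have ht' := Ioo_subset_Icc_self ht
      rw [((hf t ht').fun_sub (hasDerivAt_id' t)).deriv]
      linarith [h' t ht']
  have := h1 (left_mem_Icc.2 hab) (right_mem_Icc.2 hab) hab
  simp only at this
  linarith

/-- The triangle `0, x b, x c` has (twice) area at most the swept area. -/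
lemma chord_le (h : Curve N x) {b c : ℝ} (hbc : b < c) (hc : c < b + 1/2) :
    det2 (x b) (x c) ≤ c - b := by
  have hD := h.pos b c hbc hc
  set q : E2 := x b - x c with hq
  have hq1 : ∀ t ∈ Icc b c, det2 (x b) (x c) ≤ det2 q (x t) := by
    intro t ht
    have := h.beyond ht.1 ht.2 hbc hc
    rw [hq, det2_sub_left, det2_swap (x c) (x t)]
    linarith
  have hder : ∀ t ∈ Icc b c, HasDerivAt (fun s => det2 (x b) (x s) / det2 q (x s) * det2 (x b) (x c))
      (det2 q (x b) / det2 q (x t) ^ 2 * det2 (x b) (x c)) t := by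
    intro t ht
    exact (h.deriv (x b) q t (by linarith [hq1 t ht])).mul_const _
  have hqb : det2 q (x b) = det2 (x b) (x c) := by
    rw [hq, det2_sub_left, det2_self, det2_swap (x c) (x b)]; ring
  have hqc : det2 q (x c) = det2 (x b) (x c) := by
    rw [hq, det2_sub_left, det2_self]; ring
  have := monotone_aux' hbc.le hder (by
    intro t ht
    have h1 := hq1 t ht
    have h2 : 0 < det2 q (x t) := lt_of_lt_of_le hD h1
    rw [hqb, div_mul_eq_mul_div, div_le_one (by positivity)]
    nlinarith)
  simp only [det2_self, zero_div, zero_mul, hqc, div_self hD.ne', one_mul, sub_zero] at this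
  exact this

/-- A linear functional which is constant on the chord from `x b` to `x c`. -/
lemma sector (h : Curve N x) {b c : ℝ} (hbc : b < c) (hc : c < b + 1/2) {z : E2} (hz : N z ≤ 1) :
    det2 z (x c - x b) ≤ c - b := by
  have hD := h.pos b c hbc hc
  have hle := h.chord_le hbc hc
  set D := det2 (x b) (x c) with hDdef
  have hexp : z = (det2 z (x c) / D) • x b + (det2 (x b) z / D) • x c := expand' hD.ne'
  set α := det2 z (x c) / D with hα
  set γ := det2 (x b) z / D with hγ
  have hα' : det2 z (x c) = α * D := by rw [hα]; field_simp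
  have hγ' : det2 (x b) z = γ * D := by rw [hγ]; field_simp
  have hval : det2 z (x c - x b) = (α + γ) * D := by
    rw [det2_sub_right, hα', det2_swap z (x b), hγ']; ring
  rw [hval]
  by_cases h1 : α + γ ≤ 1
  · nlinarith
  push Not at h1
  have hα0 : 0 ≤ α := by
    by_contra hneg
    push Not at hneg
    -- x c = (z - α x b)/γ
    have hγpos : 0 < γ := by linarith
    have e : x c = γ⁻¹ • z + (γ⁻¹ * (-α)) • x b := by
      have : γ • x c = z + (-α) • x b := by
        conv_rhs => rw [hexp]
        module
      rw [mul_smul, ← smul_add, ← this, smul_smul, inv_mul_cancel₀ hγpos.ne', one_smul]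
    have h2 := h.norm.add_le (γ⁻¹ • z) ((γ⁻¹ * (-α)) • x b)
    rw [← e, h.unit, h.norm.smul_nonneg (by positivity),
      h.norm.smul_nonneg (mul_nonneg (by positivity) (by linarith)), h.unit] at h2
    have h3 : γ⁻¹ * N z ≤ γ⁻¹ * 1 := mul_le_mul_of_nonneg_left hz (by positivity)
    have h4 : (1:ℝ) ≤ γ⁻¹ * (1 - α) := by nlinarith
    have h5 : γ ≤ 1 - α := by
      rw [inv_mul_eq_div, le_div_iff₀ hγpos] at h4
      linarith
    linarith
  have hγ0 : 0 ≤ γ := by
    by_contra hneg
    push Not at hneg
    have hαpos : 0 < α := by linarith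
    have e : x b = α⁻¹ • z + (α⁻¹ * (-γ)) • x c := by
      have : α • x b = z + (-γ) • x c := by
        conv_rhs => rw [hexp]
        module
      rw [mul_smul, ← smul_add, ← this, smul_smul, inv_mul_cancel₀ hαpos.ne', one_smul]
    have h2 := h.norm.add_le (α⁻¹ • z) ((α⁻¹ * (-γ)) • x c)
    rw [← e, h.unit, h.norm.smul_nonneg (by positivity),
      h.norm.smul_nonneg (mul_nonneg (by positivity) (by linarith)), h.unit] at h2
    have h3 : α⁻¹ * N z ≤ α⁻¹ * 1 := mul_le_mul_of_nonneg_left hz (by positivity)
    have h4 : (1:ℝ) ≤ α⁻¹ * (1 - γ) := by nlinarith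
    have h5 : α ≤ 1 - γ := by
      rw [inv_mul_eq_div, le_div_iff₀ hαpos] at h4
      linarith
    linarith
  -- the ray through z meets the arc
  have hcont : ContinuousOn (fun t => det2 (x t) z) (Icc b c) :=
    (continuous_det2 h.cont continuous_const).continuousOn
  obtain ⟨t, ht, ht0⟩ : ∃ t ∈ Icc b c, det2 (x t) z = 0 := by
    have := intermediate_value_Icc' hbc.le hcont
    apply this
    constructor
    · change det2 (x c) z ≤ 0
      rw [det2_swap, hα']
      nlinarith
    · change 0 ≤ det2 (x b) z
      rw [hγ']; positivity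
  -- z = lam • x t
  have hsum : 0 < det2 (x b) (x t) + det2 (x t) (x c) := by
    have := h.beyond ht.1 ht.2 hbc hc
    linarith
  -- lam
  have hz0 : (α + γ) * D ≠ 0 := by positivity
  -- choose a nonvanishing functional: q = x b - x c
  set q : E2 := x b - x c with hq
  have hqt : det2 q (x t) = det2 (x b) (x t) + det2 (x t) (x c) := by
    rw [hq, det2_sub_left, det2_swap (x c) (x t)]; ring
  have hqz : det2 q z = (α + γ) * D := by
    rw [hq, det2_sub_left, hγ', det2_swap (x c) z, hα']; ring
  have hqt' : 0 < det2 q (x t) := by rw [hqt]; exact hsum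
  have hlam : det2 q (x t) • z = det2 q z • x t := by
    apply ext2
    · have := ht0
      simp only [det2, PiLp.smul_apply, smul_eq_mul] at this ⊢
      linear_combination (- q 0) * this
    · have := ht0
      simp only [det2, PiLp.smul_apply, smul_eq_mul] at this ⊢
      linear_combination (- q 1) * this
  have hN := congrArg N hlam
  rw [h.norm.smul_nonneg hqt'.le, h.norm.smul_nonneg (by rw [hqz]; positivity), h.unit, mul_one,
    hqz] at hN
  have h6 : (α + γ) * D ≤ det2 q (x t) := by
    rw [← hN]; nlinarith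
  have h7 : det2 (x b) (x t) ≤ t - b := by
    rcases ht.1.lt_or_eq with h' | h'
    · exact h.chord_le h' (by linarith [ht.2])
    · rw [← h', det2_self]; simp
  have h8 : det2 (x t) (x c) ≤ c - t := by
    rcases ht.2.lt_or_eq with h' | h'
    · exact h.chord_le h' (by linarith [ht.1])
    · rw [h', det2_self]; simp
  linarith

end Curve

end Pool.Agent.H78Sprawl
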