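import Pool.Agent.H78Sprawl.Polar

set_option autoImplicit false

open MeasureTheory Set Metric Filter
open scoped Real Topology

namespace Pool.Agent.H78Sprawl

open Pool.Agent.H78String
open PNorm (sprawl nrm)

/-- the maximum norm -/
noncomputable def mx (z : E2) : ℝ := max |z 0| |z 1|

/-- interpolation between the Euclidean and the maximum norm -/
noncomputable def Nl (l : unitInterval) (z : E2) : ℝ := (1 - (l:ℝ)) * ‖z‖ + l * mx z

lemma pnorm_norm : PNorm (fun z : E2 => ‖z‖) :=
  ⟨continuous_norm, fun c z => by rw [norm_smul, Real.norm_eq_abs], norm_add_le,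
    fun _ hz => norm_pos_iff.2 hz⟩

lemma pnorm_mx : PNorm mx := by
  refine ⟨?_, ?_, ?_, ?_⟩
  · unfold mx
    fun_prop
  · intro c z
    unfold mx
    rw [PiLp.smul_apply, PiLp.smul_apply, smul_eq_mul, smul_eq_mul, abs_mul, abs_mul,
      mul_max_of_nonneg _ _ (abs_nonneg c)]
  · intro z w
    unfold mx
    rw [PiLp.add_apply, PiLp.add_apply]
    apply max_le
    · exact (abs_add_le _ _).trans (add_le_add (le_max_left _ _) (le_max_left _ _))
    · exact (abs_add_le _ _).trans (add_le_add (le_max_right _ _) (le_max_right _ _))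
  · intro z hz
    unfold mx
    by_contra hcon
    push Not at hcon
    have h0 : |z 0| ≤ 0 := (le_max_left _ _).trans hcon
    have h1 : |z 1| ≤ 0 := (le_max_right _ _).trans hcon
    apply hz
    apply ext2
    · simpa using abs_nonpos_iff.1 h0
    · simpa using abs_nonpos_iff.1 h1

lemma pnorm_Nl (l : unitInterval) : PNorm (Nl l) := by
  have h1 := pnorm_norm
  have h2 := pnorm_mx
  have l0 : 0 ≤ (l:ℝ) := l.2.1
  have l1 : (l:ℝ) ≤ 1 := l.2.2
  refine ⟨?_, ?_, ?_, ?_⟩
  · unfold Nl
    have := h2.cont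
    fun_prop
  · intro c z
    unfold Nl
    rw [norm_smul, h2.smul, Real.norm_eq_abs]; ring
  · intro z w
    unfold Nl
    have a1 := mul_le_mul_of_nonneg_left (norm_add_le z w) (by linarith : 0 ≤ 1 - (l:ℝ))
    have a2 := mul_le_mul_of_nonneg_left (h2.add_le z w) l0
    linarith
  · intro z hz
    unfold Nl
    have a1 := norm_pos_iff.2 hz
    have a2 := h2.pos z hz
    rcases l0.lt_or_eq with h | h
    · have := mul_pos h a2
      have := mul_nonneg (by linarith : 0 ≤ 1 - (l:ℝ)) a1.le
      linarith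
    · rw [← h]; simpa using hz

lemma cont_aux (Nf : unitInterval → E2 → ℝ) (R W : unitInterval → ℝ → ℝ)
    (hN : Continuous fun p : unitInterval × E2 => Nf p.1 p.2)
    (hR : Continuous fun p : unitInterval × ℝ => R p.1 p.2)
    (hW : Continuous fun p : unitInterval × ℝ => W p.1 p.2) :
    Continuous fun l : unitInterval => ∫ θ in (0:ℝ)..(2 * π),
      (∫ φ in (0:ℝ)..(2 * π), Nf l (R l θ • dir θ - R l φ • dir φ) * W l φ) * W l θ := by
  have hd := continuous_dir
  have c1 : Continuous fun q : (unitInterval × ℝ) × ℝ => R q.1.1 q.1.2 :=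
    hR.comp continuous_fst
  have hproj : Continuous fun q : (unitInterval × ℝ) × ℝ => (q.1.1, q.2) :=
    (continuous_fst.comp continuous_fst).prodMk continuous_snd
  have c2 : Continuous fun q : (unitInterval × ℝ) × ℝ => R q.1.1 q.2 := hR.comp hproj
  have c3 : Continuous fun q : (unitInterval × ℝ) × ℝ => W q.1.1 q.2 := hW.comp hproj
  have c5 : Continuous fun q : (unitInterval × ℝ) × ℝ =>
      R q.1.1 q.1.2 • dir q.1.2 - R q.1.1 q.2 • dir q.2 :=
    (c1.smul (hd.comp (continuous_snd.comp continuous_fst))).sub (c2.smul (hd.comp continuous_snd))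
  have c4 : Continuous fun q : (unitInterval × ℝ) × ℝ =>
      Nf q.1.1 (R q.1.1 q.1.2 • dir q.1.2 - R q.1.1 q.2 • dir q.2) :=
    hN.comp ((continuous_fst.comp continuous_fst).prodMk c5)
  have hin : Continuous (Function.uncurry fun (p : unitInterval × ℝ) (φ : ℝ) =>
      Nf p.1 (R p.1 p.2 • dir p.2 - R p.1 φ • dir φ) * W p.1 φ) := c4.mul c3
  have hout : Continuous fun p : unitInterval × ℝ => ∫ φ in (0:ℝ)..(2 * π),
      Nf p.1 (R p.1 p.2 • dir p.2 - R p.1 φ • dir φ) * W p.1 φ :=
    intervalIntegral.continuous_parametric_intervalIntegral_of_continuous' hin _ _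
  have hfin : Continuous (Function.uncurry fun (l : unitInterval) (θ : ℝ) =>
      (∫ φ in (0:ℝ)..(2 * π), Nf l (R l θ • dir θ - R l φ • dir φ) * W l φ) * W l θ) :=
    hout.mul hW
  exact intervalIntegral.continuous_parametric_intervalIntegral_of_continuous' hfin _ _

lemma continuous_sprawl_Nl : Continuous fun l : unitInterval => sprawl (Nl l) := by
  have hmx := pnorm_mx.cont
  have hd := continuous_dir
  have hN : Continuous fun p : unitInterval × E2 => Nl p.1 p.2 := by
    unfold Nl
    fun_prop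
  have hρ : Continuous fun p : unitInterval × ℝ => rho (Nl p.1) p.2 := by
    unfold rho
    refine continuous_const.div (hN.comp (by fun_prop : Continuous fun p : unitInterval × ℝ =>
      (p.1, dir p.2))) fun p => ?_
    exact ((pnorm_Nl p.1).pos _ (dir_ne_zero _)).ne'
  have hS : Continuous fun l : unitInterval => Sq (Nl l) := by
    unfold Sq
    apply intervalIntegral.continuous_parametric_intervalIntegral_of_continuous'
    exact hρ.pow 2
  have hw : Continuous fun p : unitInterval × ℝ => wt (Nl p.1) p.2 := by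
    unfold wt
    exact (hρ.pow 2).div (hS.comp continuous_fst) fun p => ((pnorm_Nl p.1).Sq_pos).ne'
  exact cont_aux Nl (fun l => rho (Nl l)) (fun l => wt (Nl l)) hN hρ hw

lemma sprawl_norm : sprawl (fun z : E2 => ‖z‖) ≤ 4 / π := by
  have hpi := Real.pi_pos
  have hρ : ∀ θ, rho (fun z : E2 => ‖z‖) θ = 1 := by
    intro θ; unfold rho; simp only [norm_dir]; norm_num
  have hS : Sq (fun z : E2 => ‖z‖) = 2 * π := by
    unfold Sq
    simp only [hρ]
    simp
  have hw : ∀ θ, wt (fun z : E2 => ‖z‖) θ = 1 / (2 * π) := by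
    intro θ; unfold wt; rw [hρ, hS]; norm_num
  have hdist : ∀ θ φ : ℝ, ‖dir θ - dir φ‖ = 2 * |Real.sin (θ / 2 - φ / 2)| := by
    intro θ φ
    have h1 : ‖dir θ - dir φ‖ ^ 2 = (2 * |Real.sin (θ / 2 - φ / 2)|) ^ 2 := by
      rw [norm_sq_eq, mul_pow, sq_abs, PiLp.sub_apply, PiLp.sub_apply, dir_zero, dir_zero, dir_one,
        dir_one, Real.sin_sq_eq_half_sub, show 2 * (θ / 2 - φ / 2) = θ - φ by ring, Real.cos_sub]
      have h2 := Real.sin_sq_add_cos_sq θ
      have h3 := Real.sin_sq_add_cos_sq φ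
      linear_combination h2 + h3
    exact (pow_left_inj₀ (norm_nonneg _) (by positivity) two_ne_zero).1 h1
  have hsin : ∀ θ : ℝ, ∫ φ in (0:ℝ)..(2 * π), 2 * |Real.sin (θ / 2 - φ / 2)| = 8 := by
    intro θ
    rw [intervalIntegral.integral_const_mul,
      intervalIntegral.integral_comp_sub_div (fun ψ => |Real.sin ψ|) (two_ne_zero) (θ / 2)]
    have hper : Function.Periodic (fun ψ : ℝ => |Real.sin ψ|) π := by
      intro ψ; simp [Real.sin_add_pi]
    have h1 := hper.intervalIntegral_add_eq (θ / 2 - π) 0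
    have h2 : ∫ ψ in (0:ℝ)..π, |Real.sin ψ| = 2 := by
      have h3 : ∫ ψ in (0:ℝ)..π, Real.sin ψ = 2 := by rw [integral_sin]; simp; norm_num
      rw [← h3]
      refine intervalIntegral.integral_congr fun ψ hψ => ?_
      rw [uIcc_of_le hpi.le] at hψ
      exact abs_of_nonneg (Real.sin_nonneg_of_nonneg_of_le_pi hψ.1 hψ.2)
    rw [zero_add, h2] at h1
    rw [show θ / 2 - 2 * π / 2 = θ / 2 - π by ring, show θ / 2 - 0 / 2 = θ / 2 - π + π by ring, h1]
    norm_num
  apply le_of_eq
  unfold sprawl
  simp only [hρ, hw, one_smul, hdist]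
  simp only [intervalIntegral.integral_mul_const, hsin]
  rw [intervalIntegral.integral_const, smul_eq_mul]
  field_simp
  ring

end Pool.Agent.H78Sprawl
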