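import Pool.Agent.H78Sprawl.Upper

set_option autoImplicit false

open MeasureTheory Set Metric Filter
open scoped Real Topology

namespace Pool.Agent.H78Sprawl

open Pool.Agent.H78String

namespace Curve

variable {N : E2 → ℝ} {x : ℝ → E2}

/-- The mean determinant of two points of the curve at (area) distance `a`. -/
noncomputable def Cf (x : ℝ → E2) (a : ℝ) : ℝ := ∫ t in (0:ℝ)..1, det2 (x t) (x (t + a))

lemma continuous_Cf (hx : Continuous x) : Continuous (Cf x) := by
  unfold Cf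
  apply intervalIntegral.continuous_parametric_intervalIntegral_of_continuous'
  have : Continuous fun p : ℝ × ℝ => det2 (x p.2) (x (p.2 + p.1)) :=
    continuous_det2 (by fun_prop) (by fun_prop)
  exact this

lemma Cf_half (h : Curve N x) (a : ℝ) : Cf x (a + 1/2) = - Cf x a := by
  unfold Cf
  rw [← intervalIntegral.integral_neg]
  refine intervalIntegral.integral_congr fun t _ => ?_
  rw [← add_assoc, h.half, det2_neg_right]

lemma Cf_shift (h : Curve N x) (a b : ℝ) :
    ∫ t in (0:ℝ)..1, det2 (x (t + a)) (x (t + b)) = Cf x (b - a) := by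
  unfold Cf
  have hp : Function.Periodic (fun t => det2 (x t) (x (t + (b - a)))) 1 := by
    intro t
    simp only
    rw [h.one, show t + 1 + (b - a) = t + (b - a) + 1 by ring, h.one]
  rw [per_shift hp a]
  refine intervalIntegral.integral_congr fun t _ => ?_
  rw [show t + a + (b - a) = t + b by ring]

lemma Cf_neg (h : Curve N x) (a : ℝ) : Cf x (-a) = - Cf x a := by
  have h1 := h.Cf_shift a 0
  rw [zero_sub] at h1
  rw [← h1, Cf, ← intervalIntegral.integral_neg]
  refine intervalIntegral.integral_congr fun t _ => ?_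
  rw [add_zero, det2_swap]

lemma norm_ge (h : Curve N x) {η : ℝ} (hη : 0 < η) (hη' : η < 1/2) (u : E2) (b : ℝ) :
    det2 u (x (b + η) - x b) ≤ η * N u := by
  by_cases hu : u = 0
  · rw [hu, h.norm.zero]; simp [det2]
  · have hpos := h.norm.pos u hu
    have h1 := h.sector (b := b) (c := b + η) (by linarith) (by linarith) (z := (N u)⁻¹ • u)
      (by rw [h.norm.smul_nonneg (by positivity), inv_mul_cancel₀ hpos.ne'])
    rw [det2_smul_left, inv_mul_le_iff₀ hpos] at h1
    linarith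

lemma lower_r (h : Curve N x) {η : ℝ} (hη : 0 < η) (hη' : η < 1/2) (r : ℝ) :
    2 * (Cf x (1/4 + η/2 - 1/2 * r) - Cf x (1/4 - η/2 - 1/2 * r)) ≤
      η * ∫ t in (0:ℝ)..1, N (x (t + r) - x t) := by
  have hx := h.cont
  have hNc := h.norm.cont
  have hc : ∀ a b : ℝ, IntervalIntegrable (fun t => det2 (x (t + a)) (x (t + b))) volume 0 1 :=
    fun a b => (continuous_det2 (by fun_prop) (by fun_prop)).intervalIntegrable _ _
  have h1 : ∫ t in (0:ℝ)..1, ((det2 (x (t + r)) (x (t + (r/2 + 1/4 + η/2))) -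
      det2 (x (t + r)) (x (t + (r/2 + 1/4 - η/2)))) -
      (det2 (x (t + 0)) (x (t + (r/2 + 1/4 + η/2))) -
      det2 (x (t + 0)) (x (t + (r/2 + 1/4 - η/2))))) ≤
      ∫ t in (0:ℝ)..1, η * N (x (t + r) - x t) := by
    refine intervalIntegral.integral_mono_on (by norm_num)
      (((hc _ _).sub (hc _ _)).sub ((hc _ _).sub (hc _ _)))
      ((by fun_prop : Continuous fun t => η * N (x (t + r) - x t)).intervalIntegrable _ _) ?_
    intro t _
    have := h.norm_ge hη hη' (x (t + r) - x t) (t + (r/2 + 1/4 - η/2))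
    rw [show t + (r/2 + 1/4 - η/2) + η = t + (r/2 + 1/4 + η/2) by ring] at this
    rw [det2_sub_left, det2_sub_right, det2_sub_right] at this
    rw [add_zero]
    linarith
  rw [intervalIntegral.integral_sub ((hc _ _).sub (hc _ _)) ((hc _ _).sub (hc _ _)),
    intervalIntegral.integral_sub (hc _ _) (hc _ _),
    intervalIntegral.integral_sub (hc _ _) (hc _ _), h.Cf_shift, h.Cf_shift, h.Cf_shift,
    h.Cf_shift, intervalIntegral.integral_const_mul] at h1
  have e1 : Cf x (r/2 + 1/4 + η/2 - 0) = Cf x (1/4 - η/2 - 1/2 * r) := by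
    have a1 := h.Cf_half (r/2 - 1/4 + η/2)
    have a2 := h.Cf_neg (1/4 - η/2 - 1/2 * r)
    rw [show r/2 - 1/4 + η/2 + 1/2 = r/2 + 1/4 + η/2 - 0 by ring] at a1
    rw [show -(1/4 - η/2 - 1/2 * r) = r/2 - 1/4 + η/2 by ring] at a2
    rw [a1, a2, neg_neg]
  have e2 : Cf x (r/2 + 1/4 - η/2 - 0) = Cf x (1/4 + η/2 - 1/2 * r) := by
    have a1 := h.Cf_half (r/2 - 1/4 - η/2)
    have a2 := h.Cf_neg (1/4 + η/2 - 1/2 * r)
    rw [show r/2 - 1/4 - η/2 + 1/2 = r/2 + 1/4 - η/2 - 0 by ring] at a1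
    rw [show -(1/4 + η/2 - 1/2 * r) = r/2 - 1/4 - η/2 by ring] at a2
    rw [a1, a2, neg_neg]
  rw [e1, e2, show r/2 + 1/4 + η/2 - r = 1/4 + η/2 - 1/2 * r by ring,
    show r/2 + 1/4 - η/2 - r = 1/4 - η/2 - 1/2 * r by ring] at h1
  linarith

lemma lower_eta (h : Curve N x) {η : ℝ} (hη : 0 < η) (hη' : η < 1/2) :
    8 * ∫ a in (1/4 - η/2)..(1/4 + η/2), Cf x a ≤
      η * ∫ r in (0:ℝ)..1, ∫ t in (0:ℝ)..1, N (x (t + r) - x t) := by
  have hx := h.cont
  have hNc := h.norm.cont
  have hC := continuous_Cf hx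
  have hint : ∀ a b : ℝ, IntervalIntegrable (Cf x) volume a b := fun a b => hC.intervalIntegrable a b
  have hc : Continuous fun r => ∫ t in (0:ℝ)..1, N (x (t + r) - x t) := by
    apply intervalIntegral.continuous_parametric_intervalIntegral_of_continuous'
    fun_prop
  have hd : ∀ c : ℝ, IntervalIntegrable (fun r => Cf x (c - 1/2 * r)) volume 0 1 := fun c =>
    (by fun_prop : Continuous fun r => Cf x (c - 1/2 * r)).intervalIntegrable _ _
  have h1 : ∫ r in (0:ℝ)..1, 2 * (Cf x (1/4 + η/2 - 1/2 * r) - Cf x (1/4 - η/2 - 1/2 * r)) ≤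
      ∫ r in (0:ℝ)..1, η * ∫ t in (0:ℝ)..1, N (x (t + r) - x t) := by
    refine intervalIntegral.integral_mono_on (by norm_num) (((hd _).sub (hd _)).const_mul _)
      ((continuous_const.mul hc).intervalIntegrable _ _) ?_
    intro r _
    exact h.lower_r hη hη' r
  rw [intervalIntegral.integral_const_mul, intervalIntegral.integral_const_mul,
    intervalIntegral.integral_sub (hd _) (hd _),
    intervalIntegral.integral_comp_sub_mul (Cf x) (by norm_num) (1/4 + η/2),
    intervalIntegral.integral_comp_sub_mul (Cf x) (by norm_num) (1/4 - η/2)] at h1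
  have e1 : ∫ a in (1/4 + η/2 - 1/2 * 1)..(1/4 + η/2 - 1/2 * 0), Cf x a =
      (∫ a in (-1/4 + η/2)..(1/4 - η/2), Cf x a) + ∫ a in (1/4 - η/2)..(1/4 + η/2), Cf x a := by
    rw [intervalIntegral.integral_add_adjacent_intervals (hint _ _) (hint _ _)]
    congr 1 <;> ring
  have e2 : ∫ a in (1/4 - η/2 - 1/2 * 1)..(1/4 - η/2 - 1/2 * 0), Cf x a =
      (∫ a in (-1/4 - η/2)..(-1/4 + η/2), Cf x a) + ∫ a in (-1/4 + η/2)..(1/4 - η/2), Cf x a := by
    rw [intervalIntegral.integral_add_adjacent_intervals (hint _ _) (hint _ _)]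
    congr 1 <;> ring
  have e3 : ∫ a in (-1/4 - η/2)..(-1/4 + η/2), Cf x a =
      - ∫ a in (1/4 - η/2)..(1/4 + η/2), Cf x a := by
    have := intervalIntegral.integral_comp_add_right (Cf x) (a := -1/4 - η/2) (b := -1/4 + η/2)
      (1/2)
    rw [show -1/4 - η/2 + 1/2 = 1/4 - η/2 by ring, show -1/4 + η/2 + 1/2 = 1/4 + η/2 by ring] at this
    rw [← this, ← intervalIntegral.integral_neg]
    refine intervalIntegral.integral_congr fun a _ => ?_
    rw [h.Cf_half, neg_neg]
  rw [e1, e2, e3] at h1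
  simp only [smul_eq_mul] at h1
  norm_num at h1 ⊢
  linarith

/-- `E ≥ 8 C(1/4)`. -/
theorem lower_C (h : Curve N x) :
    8 * Cf x (1/4) ≤ ∫ r in (0:ℝ)..1, ∫ t in (0:ℝ)..1, N (x (t + r) - x t) := by
  have hC := continuous_Cf h.cont
  refine le_of_forall_pos_le_add fun ε hε => ?_
  have hcont := (Metric.continuous_iff.1 hC (1/4) (ε / 8) (by positivity))
  obtain ⟨δ, hδ, hδ'⟩ := hcont
  set η := min (δ / 2) (1/4) with hη
  have hη0 : 0 < η := by positivity
  have hη1 : η ≤ 1/4 := min_le_right _ _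
  have hη2 : η ≤ δ / 2 := min_le_left _ _
  have h1 := h.lower_eta hη0 (by linarith)
  have h2 : ∫ _a in (1/4 - η/2)..(1/4 + η/2), (Cf x (1/4) - ε / 8) ≤
      ∫ a in (1/4 - η/2)..(1/4 + η/2), Cf x a := by
    refine intervalIntegral.integral_mono_on (by linarith) (continuous_const.intervalIntegrable _ _)
      (hC.intervalIntegrable _ _) ?_
    intro a ha
    have := hδ' a (by rw [Real.dist_eq, abs_lt]; constructor <;> linarith [ha.1, ha.2])
    rw [Real.dist_eq, abs_lt] at this
    linarith [this.1]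
  rw [intervalIntegral.integral_const, smul_eq_mul, show 1/4 + η/2 - (1/4 - η/2) = η by ring] at h2
  have h3 : η * (8 * Cf x (1/4) - ε) ≤
      η * ∫ r in (0:ℝ)..1, ∫ t in (0:ℝ)..1, N (x (t + r) - x t) := by linarith
  have := le_of_mul_le_mul_left h3 hη0
  linarith

end Curve

end Pool.Agent.H78Sprawl
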