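import Pool.Agent.H78Sprawl.Lower

set_option autoImplicit false

open MeasureTheory Set Metric Filter
open scoped Real Topology

namespace Pool.Agent.H78Sprawl

open Pool.Agent.H78String

namespace Curve

variable {N : E2 → ℝ} {x : ℝ → E2}

/-- determinant of `x t` and the point a quarter period ahead -/
noncomputable def W (x : ℝ → E2) (t : ℝ) : ℝ := det2 (x t) (x (t + 1/4))

lemma W_pos (h : Curve N x) (t : ℝ) : 0 < W x t := h.pos _ _ (by linarith) (by linarith)

lemma continuous_W (h : Curve N x) : Continuous (W x) :=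
  continuous_det2 h.cont (h.cont.comp (by fun_prop))

lemma W_periodic (h : Curve N x) : Function.Periodic (W x) (1/4) := by
  intro t
  unfold W
  rw [show t + 1/4 + 1/4 = t + 1/2 by ring, h.half, det2_neg_right, ← det2_swap]

lemma amgm_aux {a b c d D : ℝ} (ha : 0 < a) (hb : 0 < b) (hc : 0 < c) (hd : 0 < d) (hD : 0 < D) :
    D / (b * d + a * c) ≤ 1 / (1 + (Real.sqrt (a / b * (c / d))) ^ 2) *
      ((D / b ^ 2 * (c / d) + a / b * (D / d ^ 2)) / (2 * Real.sqrt (a / b * (c / d)))) := by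
  have hpos : 0 < a / b * (c / d) := by positivity
  rw [Real.sq_sqrt hpos.le]
  set s := Real.sqrt (a / b * (c / d)) with hs
  have hspos : 0 < s := Real.sqrt_pos.2 hpos
  have hs2 : s ^ 2 = a / b * (c / d) := Real.sq_sqrt hpos.le
  have e1 : 1 / (1 + a / b * (c / d)) = b * d / (b * d + a * c) := by field_simp
  have e2 : D / b ^ 2 * (c / d) + a / b * (D / d ^ 2) = D * (c * d + a * b) / (b ^ 2 * d ^ 2) := by
    field_simp
  rw [e1, e2]
  have key : 2 * s * (b * d) ≤ c * d + a * b := by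
    have h1 : (2 * s * (b * d)) ^ 2 ≤ (c * d + a * b) ^ 2 := by
      have : (2 * s * (b * d)) ^ 2 = 4 * (a * b * (c * d)) := by
        rw [mul_pow, mul_pow, hs2]; field_simp; norm_num
      rw [this]
      nlinarith [sq_nonneg (c * d - a * b)]
    exact le_of_sq_le_sq h1 (by positivity)
  have e3 : b * d / (b * d + a * c) * (D * (c * d + a * b) / (b ^ 2 * d ^ 2) / (2 * s)) =
      D / (b * d + a * c) * ((c * d + a * b) / (2 * s * (b * d))) := by field_simp
  rw [e3]
  exact le_mul_of_one_le_right (by positivity) ((one_le_div (by positivity)).2 key)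

/-- the angle function -/
noncomputable def ang (x : ℝ → E2) (t : ℝ) : ℝ :=
  Real.arctan (Real.sqrt ((det2 (x 0) (x t) / det2 (x t) (x (1/4))) *
    (det2 (x (1/4)) (x (t + 1/4)) / det2 (x 0) (x (t + 1/4)))))

noncomputable def ang' (x : ℝ → E2) (t : ℝ) : ℝ :=
  let a := det2 (x 0) (x t)
  let b := det2 (x t) (x (1/4))
  let c := det2 (x (1/4)) (x (t + 1/4))
  let d := det2 (x 0) (x (t + 1/4))
  let D := det2 (x 0) (x (1/4))
  1 / (1 + (Real.sqrt (a / b * (c / d))) ^ 2) *
      ((D / b ^ 2 * (c / d) + a / b * (D / d ^ 2)) / (2 * Real.sqrt (a / b * (c / d))))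

lemma ang_deriv (h : Curve N x) {t : ℝ} (h0 : 0 < t) (h1 : t < 1/4) :
    HasDerivAt (ang x) (ang' x t) t := by
  have ha : 0 < det2 (x 0) (x t) := h.pos _ _ h0 (by linarith)
  have hb : 0 < det2 (x t) (x (1/4)) := h.pos _ _ h1 (by linarith)
  have hc : 0 < det2 (x (1/4)) (x (t + 1/4)) := h.pos _ _ (by linarith) (by linarith)
  have hd : 0 < det2 (x 0) (x (t + 1/4)) := h.pos _ _ (by linarith) (by linarith)
  have hu : HasDerivAt (fun s => det2 (x 0) (x s) / det2 (x s) (x (1/4)))
      (det2 (x 0) (x (1/4)) / det2 (x t) (x (1/4)) ^ 2) t := by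
    have h2 := (h.deriv (x 0) (x (1/4)) t (by rw [det2_swap]; linarith)).neg
    have e : (fun s => det2 (x 0) (x s) / det2 (x s) (x (1/4))) =
        -(fun s => det2 (x 0) (x s) / det2 (x (1/4)) (x s)) := by
      funext s
      simp only [Pi.neg_apply]
      rw [det2_swap (x s) (x (1/4)), div_neg]
    rw [e]
    refine h2.congr_deriv ?_
    rw [det2_swap (x (1/4)) (x 0), det2_swap (x (1/4)) (x t)]
    ring
  have hv : HasDerivAt (fun s => det2 (x (1/4)) (x (s + 1/4)) / det2 (x 0) (x (s + 1/4)))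
      (det2 (x 0) (x (1/4)) / det2 (x 0) (x (t + 1/4)) ^ 2) t :=
    (h.deriv (x (1/4)) (x 0) (t + 1/4) hd.ne').comp_add_const t (1/4)
  have huv := hu.mul hv
  have hpos : 0 < det2 (x 0) (x t) / det2 (x t) (x (1/4)) *
    (det2 (x (1/4)) (x (t + 1/4)) / det2 (x 0) (x (t + 1/4))) := by positivity
  exact (huv.sqrt hpos.ne').arctan

lemma W_inv_le (h : Curve N x) {t : ℝ} (h0 : 0 < t) (h1 : t < 1/4) :
    1 / W x t ≤ ang' x t := by
  have ha : 0 < det2 (x 0) (x t) := h.pos _ _ h0 (by linarith)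
  have hb : 0 < det2 (x t) (x (1/4)) := h.pos _ _ h1 (by linarith)
  have hc : 0 < det2 (x (1/4)) (x (t + 1/4)) := h.pos _ _ (by linarith) (by linarith)
  have hd : 0 < det2 (x 0) (x (t + 1/4)) := h.pos _ _ (by linarith) (by linarith)
  have hD : 0 < det2 (x 0) (x (1/4)) := h.pos _ _ (by norm_num) (by norm_num)
  have hW : 1 / W x t = det2 (x 0) (x (1/4)) /
      (det2 (x t) (x (1/4)) * det2 (x 0) (x (t + 1/4)) +
        det2 (x 0) (x t) * det2 (x (1/4)) (x (t + 1/4))) := by
    rw [div_eq_div_iff (h.W_pos t).ne' (by positivity)]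
    unfold W det2
    ring
  rw [hW]
  exact amgm_aux ha hb hc hd hD

lemma integral_W_inv (h : Curve N x) : ∫ t in (0:ℝ)..(1/4), 1 / W x t ≤ π / 2 := by
  have hWc : Continuous fun t => 1 / W x t :=
    continuous_const.div h.continuous_W (fun t => (h.W_pos t).ne')
  have key : ∀ ε : ℝ, 0 < ε → ε < 1/8 → ∫ t in ε..(1/4 - ε), 1 / W x t ≤ π / 2 := by
    intro ε hε hε'
    have h1 : ∫ t in ε..(1/4 - ε), 1 / W x t ≤ ang x (1/4 - ε) - ang x ε := by
      refine intervalIntegral.integral_le_sub_of_hasDeriv_right_of_le (g' := ang' x) (by linarith)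
        ?_ ?_ ?_ ?_
      · intro t ht
        exact (h.ang_deriv (by linarith [ht.1]) (by linarith [ht.2])).continuousAt.continuousWithinAt
      · intro t ht
        exact (h.ang_deriv (by linarith [ht.1]) (by linarith [ht.2])).hasDerivWithinAt
      · exact hWc.continuousOn.integrableOn_Icc
      · intro t ht
        exact h.W_inv_le (by linarith [ht.1]) (by linarith [ht.2])
    have h2 : ang x (1/4 - ε) < π / 2 := Real.arctan_lt_pi_div_two _
    have h3 : 0 ≤ ang x ε := Real.arctan_nonneg.2 (Real.sqrt_nonneg _)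
    linarith
  have hlim : Tendsto (fun ε : ℝ => ∫ t in ε..(1/4 - ε), 1 / W x t) (𝓝[>] 0)
      (𝓝 (∫ t in (0:ℝ)..(1/4), 1 / W x t)) := by
    have hP : Continuous fun y : ℝ => ∫ t in (0:ℝ)..y, 1 / W x t :=
      intervalIntegral.continuous_primitive (fun a b => hWc.intervalIntegrable a b) 0
    have e : (fun ε : ℝ => ∫ t in ε..(1/4 - ε), 1 / W x t) =
        fun ε : ℝ => (∫ t in (0:ℝ)..(1/4 - ε), 1 / W x t) - ∫ t in (0:ℝ)..ε, 1 / W x t := by
      funext ε
      rw [intervalIntegral.integral_interval_sub_left (hWc.intervalIntegrable _ _)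
        (hWc.intervalIntegrable _ _)]
    rw [e]
    have hcont : Continuous fun ε : ℝ => (∫ t in (0:ℝ)..(1/4 - ε), 1 / W x t) -
        ∫ t in (0:ℝ)..ε, 1 / W x t :=
      (hP.comp (by fun_prop : Continuous fun ε : ℝ => 1/4 - ε)).sub hP
    have := hcont.tendsto 0
    simp only [sub_zero, intervalIntegral.integral_same] at this
    exact this.mono_left nhdsWithin_le_nhds
  refine le_of_tendsto hlim ?_
  filter_upwards [Ioo_mem_nhdsGT (show (0:ℝ) < 1/8 by norm_num)] with ε hε using key ε hε.1 hε.2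

/-- `C(1/4) ≥ 1 / (2 π)`. -/
theorem Cf_quarter (h : Curve N x) : 1 / (2 * π) ≤ Cf x (1/4) := by
  have hWc := h.continuous_W
  have hWi : Continuous fun t => 1 / W x t :=
    continuous_const.div h.continuous_W (fun t => (h.W_pos t).ne')
  have e1 : Cf x (1/4) = 4 * ∫ t in (0:ℝ)..(1/4), W x t := by
    have h1 := h.W_periodic.intervalIntegral_add_eq (1/4) 0
    have h2 := h.W_periodic.intervalIntegral_add_eq (2/4) 0
    have h3 := h.W_periodic.intervalIntegral_add_eq (3/4) 0
    have hi : ∀ a b : ℝ, IntervalIntegrable (W x) volume a b := fun a b => hWc.intervalIntegrable a b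
    have h4 : Cf x (1/4) = (∫ t in (0:ℝ)..(1/4), W x t) + (∫ t in (1/4:ℝ)..(2/4), W x t) +
        (∫ t in (2/4:ℝ)..(3/4), W x t) + ∫ t in (3/4:ℝ)..1, W x t := by
      rw [intervalIntegral.integral_add_adjacent_intervals (hi _ _) (hi _ _),
        intervalIntegral.integral_add_adjacent_intervals (hi _ _) (hi _ _),
        intervalIntegral.integral_add_adjacent_intervals (hi _ _) (hi _ _)]
      rfl
    norm_num at h1 h2 h3 h4 ⊢
    rw [h4, h1, h2, h3]
    ring
  have hJ := h.integral_W_inv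
  have hlow : ∫ t in (0:ℝ)..(1/4), (2 * (1 / (2 * π)) - (1 / (2 * π)) ^ 2 * (1 / W x t)) ≤
      ∫ t in (0:ℝ)..(1/4), W x t := by
    refine intervalIntegral.integral_mono_on (by norm_num)
      ((continuous_const.sub (continuous_const.mul hWi)).intervalIntegrable _ _)
      (hWc.intervalIntegrable _ _) ?_
    intro t _
    have hp := h.W_pos t
    have h1 : 0 ≤ (W x t - 1 / (2 * π)) ^ 2 / W x t := by positivity
    have h2 : (W x t - 1 / (2 * π)) ^ 2 / W x t =
      W x t - 2 * (1 / (2 * π)) + (1 / (2 * π)) ^ 2 * (1 / W x t) := by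
      field_simp
      ring
    linarith
  have hWi2 : IntervalIntegrable (fun t => (1 / (2 * π)) ^ 2 * (1 / W x t)) volume 0 (1/4) :=
    (continuous_const.mul hWi).intervalIntegrable _ _
  rw [intervalIntegral.integral_sub (continuous_const.intervalIntegrable _ _)
    hWi2, intervalIntegral.integral_const,
    intervalIntegral.integral_const_mul, smul_eq_mul] at hlow
  have hpi := Real.pi_pos
  have h5 : (1 / (2 * π)) ^ 2 * ∫ t in (0:ℝ)..(1/4), 1 / W x t ≤ (1 / (2 * π)) ^ 2 * (π / 2) :=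
    mul_le_mul_of_nonneg_left hJ (by positivity)
  have h6 : (1 / (2 * π)) ^ 2 * (π / 2) = 1 / (8 * π) := by field_simp; norm_num
  have h7 : (1/4 - 0) * (2 * (1 / (2 * π))) = 2 / (8 * π) := by field_simp; norm_num
  have h8 : 1 / (2 * π) = 4 * (2 / (8 * π) - 1 / (8 * π)) := by field_simp; norm_num
  rw [e1, h8]
  rw [h7] at hlow
  linarith

/-- `E ≥ 4 / π`. -/
theorem lower (h : Curve N x) :
    4 / π ≤ ∫ r in (0:ℝ)..1, ∫ t in (0:ℝ)..1, N (x (t + r) - x t) := by
  have h1 := h.lower_C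
  have h2 := h.Cf_quarter
  have h3 : 4 / π = 8 * (1 / (2 * π)) := by
    have := Real.pi_pos
    field_simp
    norm_num
  linarith

end Curve

end Pool.Agent.H78Sprawl
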