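import Pool.Agent.H78Sprawl.Upper2
import Pool.Agent.H78Sprawl.Lower2

set_option autoImplicit false

open MeasureTheory Set Metric Filter
open scoped Real Topology

namespace Pool.Agent.H78Sprawl

open Pool.Agent.H78String

/-- radial function -/
noncomputable def rho (N : E2 → ℝ) (θ : ℝ) : ℝ := 1 / N (dir θ)

/-- twice the area of the unit ball -/
noncomputable def Sq (N : E2 → ℝ) : ℝ := ∫ θ in (0:ℝ)..(2 * π), rho N θ ^ 2

/-- area density -/
noncomputable def wt (N : E2 → ℝ) (θ : ℝ) : ℝ := rho N θ ^ 2 / Sq N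

/-- swept area -/
noncomputable def Tf (N : E2 → ℝ) (θ : ℝ) : ℝ := ∫ s in (0:ℝ)..θ, wt N s

lemma dir_ne_zero (θ : ℝ) : dir θ ≠ 0 := by
  intro h
  have := norm_dir θ
  rw [h, norm_zero] at this
  norm_num at this

namespace PNorm

variable {N : E2 → ℝ}

lemma rho_pos (h : PNorm N) (θ : ℝ) : 0 < rho N θ := by
  have := h.pos _ (dir_ne_zero θ)
  unfold rho
  positivity

lemma continuous_rho (h : PNorm N) : Continuous (rho N) := by
  unfold rho
  exact continuous_const.div (h.cont.comp continuous_dir) fun θ => (h.pos _ (dir_ne_zero θ)).ne'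

lemma rho_pi (h : PNorm N) (θ : ℝ) : rho N (θ + π) = rho N θ := by
  unfold rho
  rw [dir_add_pi, h.neg]

lemma Sq_pos (h : PNorm N) : 0 < Sq N := by
  unfold Sq
  exact intervalIntegral.intervalIntegral_pos_of_pos
    ((h.continuous_rho.pow 2).intervalIntegrable _ _) (fun θ => pow_pos (h.rho_pos θ) 2)
    (by positivity)

lemma wt_pos (h : PNorm N) (θ : ℝ) : 0 < wt N θ := by
  have := h.rho_pos θ
  have := h.Sq_pos
  unfold wt
  positivity

lemma continuous_wt (h : PNorm N) : Continuous (wt N) := by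
  unfold wt
  exact (h.continuous_rho.pow 2).div_const _

lemma wt_pi (h : PNorm N) : Function.Periodic (wt N) π := by
  intro θ
  unfold wt
  rw [h.rho_pi]

lemma Tf_deriv (h : PNorm N) (θ : ℝ) : HasDerivAt (Tf N) (wt N θ) θ :=
  (h.continuous_wt.integral_hasStrictDerivAt 0 θ).hasDerivAt

lemma Tf_zero : Tf N 0 = 0 := by simp [Tf]

lemma Tf_two_pi (h : PNorm N) : Tf N (2 * π) = 1 := by
  unfold Tf wt
  rw [intervalIntegral.integral_div]
  exact div_self h.Sq_pos.ne'

lemma wt_half (h : PNorm N) : ∫ s in (0:ℝ)..π, wt N s = 1/2 := by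
  have hi : ∀ a b : ℝ, IntervalIntegrable (wt N) volume a b := fun a b =>
    h.continuous_wt.intervalIntegrable a b
  have h1 := h.wt_pi.intervalIntegral_add_eq π 0
  rw [zero_add] at h1
  have h2 := h.Tf_two_pi
  unfold Tf at h2
  rw [← intervalIntegral.integral_add_adjacent_intervals (hi 0 π) (hi π (2 * π)), two_mul, h1] at h2
  linarith

lemma Tf_pi (h : PNorm N) (θ : ℝ) : Tf N (θ + π) = Tf N θ + 1/2 := by
  have hi : ∀ a b : ℝ, IntervalIntegrable (wt N) volume a b := fun a b =>
    h.continuous_wt.intervalIntegrable a b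
  have h1 := h.wt_pi.intervalIntegral_add_eq θ 0
  rw [zero_add, h.wt_half] at h1
  unfold Tf
  rw [← intervalIntegral.integral_add_adjacent_intervals (hi 0 θ) (hi θ (θ + π)), h1]

lemma continuous_Tf (h : PNorm N) : Continuous (Tf N) :=
  continuous_iff_continuousAt.2 fun θ => (h.Tf_deriv θ).continuousAt

lemma strictMono_Tf (h : PNorm N) : StrictMono (Tf N) :=
  strictMono_of_hasDerivAt_pos (fun θ => h.Tf_deriv θ) (fun θ => h.wt_pos θ)

lemma Tf_nat (h : PNorm N) (θ : ℝ) (n : ℕ) : Tf N (θ + n * π) = Tf N θ + n / 2 := by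
  induction n with
  | zero => simp
  | succ n ih =>
    push_cast
    rw [show θ + ((n:ℝ) + 1) * π = (θ + n * π) + π by ring, h.Tf_pi, ih]
    ring

lemma surjective_Tf (h : PNorm N) : Function.Surjective (Tf N) := by
  apply h.continuous_Tf.surjective
  · rw [tendsto_atTop_atTop]
    intro b
    obtain ⟨n, hn⟩ := exists_nat_ge (2 * b)
    refine ⟨n * π, fun a ha => ?_⟩
    have h1 := h.strictMono_Tf.monotone ha
    have h2 := h.Tf_nat 0 n
    rw [zero_add, Tf_zero] at h2
    linarith
  · rw [tendsto_atBot_atBot]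
    intro b
    obtain ⟨n, hn⟩ := exists_nat_ge (2 * (-b))
    refine ⟨-(n * π), fun a ha => ?_⟩
    have h1 := h.strictMono_Tf.monotone ha
    have h2 := h.Tf_nat (-(n * π)) n
    rw [neg_add_cancel, Tf_zero] at h2
    linarith

/-- swept area as an order isomorphism -/
noncomputable def Te (h : PNorm N) : ℝ ≃o ℝ :=
  StrictMono.orderIsoOfSurjective (Tf N) h.strictMono_Tf h.surjective_Tf

/-- the inverse of the swept area -/
noncomputable def Th (h : PNorm N) : ℝ → ℝ := h.Te.symm

lemma Tf_Th (h : PNorm N) (t : ℝ) : Tf N (h.Th t) = t := h.Te.apply_symm_apply t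

lemma Th_Tf (h : PNorm N) (θ : ℝ) : h.Th (Tf N θ) = θ := h.Te.symm_apply_apply θ

lemma continuous_Th (h : PNorm N) : Continuous h.Th := h.Te.symm.continuous

lemma strictMono_Th (h : PNorm N) : StrictMono h.Th := h.Te.symm.strictMono

lemma Th_half (h : PNorm N) (t : ℝ) : h.Th (t + 1/2) = h.Th t + π := by
  apply h.strictMono_Tf.injective
  rw [h.Tf_Th, h.Tf_pi, h.Tf_Th]

lemma Th_deriv (h : PNorm N) (t : ℝ) : HasDerivAt h.Th (wt N (h.Th t))⁻¹ t :=
  HasDerivAt.of_local_left_inverse h.continuous_Th.continuousAt (h.Tf_deriv _) (h.wt_pos _).ne'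
    (Eventually.of_forall fun y => h.Tf_Th y)

/-- the normalised norm -/
noncomputable def nrm (N : E2 → ℝ) (z : E2) : ℝ := Real.sqrt (Sq N) * N z

/-- the boundary curve in the area parameter -/
noncomputable def cur (h : PNorm N) (t : ℝ) : E2 :=
  (rho N (h.Th t) / Real.sqrt (Sq N)) • dir (h.Th t)

lemma ratio_deriv (p q : E2) (θ : ℝ) (hq : det2 q (dir θ) ≠ 0) :
    HasDerivAt (fun s => det2 p (dir s) / det2 q (dir s)) (det2 q p / det2 q (dir θ) ^ 2) θ := by
  have hd : ∀ p : E2, HasDerivAt (fun s => det2 p (dir s)) (p 0 * Real.cos θ + p 1 * Real.sin θ) θ := by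
    intro p
    have e : (fun s => det2 p (dir s)) = fun s => p 0 * Real.sin s - p 1 * Real.cos s := by
      funext s
      rw [det2, dir_zero, dir_one]
    rw [e]
    have := ((Real.hasDerivAt_sin θ).const_mul (p 0)).fun_sub ((Real.hasDerivAt_cos θ).const_mul (p 1))
    refine this.congr_deriv ?_
    ring
  refine ((hd p).fun_div (hd q) hq).congr_deriv ?_
  congr 1
  simp only [det2, dir_zero, dir_one]
  linear_combination (p 1 * q 0 - p 0 * q 1) * Real.sin_sq_add_cos_sq θ

lemma curve (h : PNorm N) : Curve (nrm N) h.cur := by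
  have hS := h.Sq_pos
  have hS' : 0 < Real.sqrt (Sq N) := Real.sqrt_pos.2 hS
  refine ⟨⟨?_, ?_, ?_, ?_⟩, ?_, ?_, ?_, ?_, ?_⟩
  · exact continuous_const.mul h.cont
  · intro c z
    unfold nrm
    rw [h.smul]; ring
  · intro z w
    unfold nrm
    rw [← mul_add]
    exact mul_le_mul_of_nonneg_left (h.add_le z w) hS'.le
  · intro z hz
    exact mul_pos hS' (h.pos z hz)
  · unfold cur
    exact ((h.continuous_rho.comp h.continuous_Th).div_const _).smul
      (continuous_dir.comp h.continuous_Th)
  · intro t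
    have h1 := h.rho_pos (h.Th t)
    have h2 := h.pos _ (dir_ne_zero (h.Th t))
    unfold nrm cur
    rw [h.smul_nonneg (by positivity)]
    unfold rho
    field_simp
  · intro t
    unfold cur
    rw [h.Th_half, h.rho_pi, dir_add_pi, smul_neg]
  · intro b c hbc hc
    unfold cur
    rw [det2_smul_left, det2_smul_right, det2_dir]
    have h1 := h.strictMono_Th hbc
    have h2 := h.strictMono_Th hc
    rw [h.Th_half] at h2
    have h3 : 0 < Real.sin (h.Th c - h.Th b) := Real.sin_pos_of_pos_of_lt_pi (by linarith)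
      (by linarith)
    have := h.rho_pos (h.Th b)
    have := h.rho_pos (h.Th c)
    positivity
  · intro p q t hq
    have hρ := h.rho_pos (h.Th t)
    have hq' : det2 q (dir (h.Th t)) ≠ 0 := by
      intro h0
      apply hq
      unfold cur
      rw [det2_smul_right, h0, mul_zero]
    have h1 := (ratio_deriv p q (h.Th t) hq').comp t (h.Th_deriv t)
    have e : (fun s => det2 p (h.cur s) / det2 q (h.cur s)) =
        (fun s => det2 p (dir s) / det2 q (dir s)) ∘ h.Th := by
      funext s
      have := h.rho_pos (h.Th s)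
      simp only [Function.comp, cur]
      rw [det2_smul_right, det2_smul_right, mul_div_mul_left _ _ (by positivity)]
    rw [e]
    refine h1.congr_deriv ?_
    unfold cur wt
    rw [det2_smul_right, mul_pow, div_pow, Real.sq_sqrt hS.le]
    field_simp

/-- change of variables -/
lemma param_integral (h : PNorm N) {G : ℝ → ℝ} (hG : Continuous G) :
    ∫ θ in (0:ℝ)..(2 * π), G θ * wt N θ = ∫ t in (0:ℝ)..1, G (h.Th t) := by
  have := intervalIntegral.integral_comp_mul_deriv (a := 0) (b := 2 * π) (f := Tf N) (f' := wt N)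
    (g := G ∘ h.Th) (fun θ _ => h.Tf_deriv θ) h.continuous_wt.continuousOn
    (hG.comp h.continuous_Th)
  rw [Tf_zero, h.Tf_two_pi] at this
  simp only [Function.comp, h.Th_Tf] at this
  exact this

/-- The sprawl in polar coordinates. -/
noncomputable def sprawl (N : E2 → ℝ) : ℝ :=
  ∫ θ in (0:ℝ)..(2 * π), (∫ φ in (0:ℝ)..(2 * π),
    N (rho N θ • dir θ - rho N φ • dir φ) * wt N φ) * wt N θ

lemma sprawl_eq (h : PNorm N) :
    sprawl N = ∫ r in (0:ℝ)..1, ∫ t in (0:ℝ)..1, nrm N (h.cur (t + r) - h.cur t) := by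
  have hρ := h.continuous_rho
  have hN := h.cont
  have hd := continuous_dir
  have hw := h.continuous_wt
  have hTh := h.continuous_Th
  have hcur : Continuous h.cur := h.curve.cont
  have hnrm : Continuous (nrm N) := h.curve.norm.cont
  have hS' : 0 < Real.sqrt (Sq N) := Real.sqrt_pos.2 h.Sq_pos
  have hX : ∀ t, rho N (h.Th t) • dir (h.Th t) = Real.sqrt (Sq N) • h.cur t := by
    intro t
    unfold cur
    rw [smul_smul]
    congr 1
    field_simp
  unfold sprawl
  rw [h.param_integral (G := fun θ => ∫ φ in (0:ℝ)..(2 * π),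
    N (rho N θ • dir θ - rho N φ • dir φ) * wt N φ)]
  swap
  · apply intervalIntegral.continuous_parametric_intervalIntegral_of_continuous'
    fun_prop
  have e1 : ∀ t, ∫ φ in (0:ℝ)..(2 * π),
      N (rho N (h.Th t) • dir (h.Th t) - rho N φ • dir φ) * wt N φ =
      ∫ r in (0:ℝ)..1, nrm N (h.cur (t + r) - h.cur t) := by
    intro t
    rw [h.param_integral (G := fun φ => N (rho N (h.Th t) • dir (h.Th t) - rho N φ • dir φ))
      (by fun_prop)]
    have hp : Function.Periodic (fun s => nrm N (h.cur s - h.cur t)) 1 := by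
      intro s
      simp only [h.curve.one]
    have e2 : ∫ s in (0:ℝ)..1, N (rho N (h.Th t) • dir (h.Th t) - rho N (h.Th s) • dir (h.Th s)) =
        ∫ s in (0:ℝ)..1, nrm N (h.cur s - h.cur t) := by
      refine intervalIntegral.integral_congr fun s _ => ?_
      simp only [hX]
      rw [← smul_sub, h.smul_nonneg hS'.le, ← h.neg, neg_sub]
      rfl
    rw [e2, Curve.per_shift hp t]
    refine intervalIntegral.integral_congr fun s _ => ?_
    rw [add_comm]
  simp_rw [e1]
  apply intervalIntegral_intervalIntegral_swap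
  have hc : Continuous (Function.uncurry fun t r : ℝ => nrm N (h.cur (t + r) - h.cur t)) := by
    fun_prop
  exact (hc.continuousOn.integrableOn_compact (isCompact_uIcc.prod isCompact_uIcc)).mono_set
    (prod_mono uIoc_subset_uIcc uIoc_subset_uIcc)

lemma sprawl_le (h : PNorm N) : sprawl N ≤ 4 / 3 := by
  rw [h.sprawl_eq]
  exact h.curve.upper

lemma le_sprawl (h : PNorm N) : 4 / π ≤ sprawl N := by
  rw [h.sprawl_eq]
  exact h.curve.lower

end PNorm

end Pool.Agent.H78Sprawl
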