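import Pool.Agent.H78Sprawl.Param

set_option autoImplicit false

open MeasureTheory Set Metric Filter
open scoped Real Topology

namespace Pool.Agent.H78Sprawl

open Pool.Agent.H78String

/-- The sprawl functional of the frozen statement, in dimension two. -/
noncomputable def EK (K : Set E2) : ℝ :=
  (∫ x in K, ∫ y in K, gauge K ((gauge K x)⁻¹ • x - (gauge K y)⁻¹ • y)) /
    ((volume K).toReal ^ 2)

/-- coordinates -/
noncomputable def toE : ℝ × ℝ ≃ᵐ E2 :=
  (MeasurableEquiv.finTwoArrow.symm).trans (MeasurableEquiv.toLp 2 (Fin 2 → ℝ))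

lemma toE_apply (p : ℝ × ℝ) : toE p = !₂[p.1, p.2] := rfl

lemma measurePreserving_toE : MeasurePreserving toE volume volume :=
  ((volume_preserving_finTwoArrow ℝ).symm _).trans
    (EuclideanSpace.volume_preserving_symm_measurableEquiv_toLp (Fin 2)).symm

lemma toE_polar (p : ℝ × ℝ) : toE (polarCoord.symm p) = p.1 • dir p.2 := by
  rw [toE_apply, polarCoord_symm_apply]
  apply ext2
  · rw [PiLp.smul_apply, dir_zero]; simp
  · rw [PiLp.smul_apply, dir_one]; simp

lemma integral_polar (f : E2 → ℝ) :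
    ∫ z, f z = ∫ p in Ioi (0:ℝ) ×ˢ Ioo (-π) π, p.1 * f (p.1 • dir p.2) := by
  rw [← measurePreserving_toE.integral_comp toE.measurableEmbedding f,
    ← integral_comp_polarCoord_symm (fun p => f (toE p))]
  rw [show polarCoord.target = Ioi (0:ℝ) ×ˢ Ioo (-π) π from rfl]
  simp only [toE_polar, smul_eq_mul]

namespace PNorm

variable {N : E2 → ℝ}

lemma dir_two_pi_rho (h : PNorm N) : Function.Periodic (rho N) (2 * π) := by
  intro θ
  rw [show θ + 2 * π = θ + π + π by ring, h.rho_pi, h.rho_pi]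

lemma polar_integral (h : PNorm N) (F : E2 → ℝ) (g : ℝ → ℝ)
    (hg : Continuous g) (hper : Function.Periodic g (2 * π))
    (hFg : ∀ r θ : ℝ, 0 < r → F (r • dir θ) = g θ) :
    ∫ x in {z | N z ≤ 1}, F x = ∫ θ in (0:ℝ)..(2 * π), rho N θ ^ 2 / 2 * g θ := by
  have hρ := h.continuous_rho
  have hmeas : MeasurableSet {z | N z ≤ 1} := (isClosed_le h.cont continuous_const).measurableSet
  rw [← integral_indicator hmeas, integral_polar]
  -- the integrand
  set A : Set (ℝ × ℝ) := {p | p.1 ≤ rho N p.2} with hA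
  have hAm : MeasurableSet A := (isClosed_le continuous_fst (hρ.comp continuous_snd)).measurableSet
  have hmem : ∀ p : ℝ × ℝ, 0 < p.1 → (p.1 • dir p.2 ∈ {z | N z ≤ 1} ↔ p ∈ A) := by
    intro p hp
    have hd := h.pos _ (dir_ne_zero p.2)
    simp only [hA, mem_ofPred_eq, rho]
    rw [h.smul_nonneg hp.le, le_div_iff₀ hd]
  have e1 : ∫ p in Ioi (0:ℝ) ×ˢ Ioo (-π) π, p.1 *
      ({z | N z ≤ 1}.indicator F) (p.1 • dir p.2) =
      ∫ p in Ioi (0:ℝ) ×ˢ Ioo (-π) π, A.indicator (fun p => p.1 * g p.2) p := by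
    refine setIntegral_congr_fun (measurableSet_Ioi.prod measurableSet_Ioo) fun p hp => ?_
    have hp1 : 0 < p.1 := hp.1
    by_cases hpA : p ∈ A
    · rw [indicator_of_mem hpA, indicator_of_mem ((hmem p hp1).2 hpA), hFg _ _ hp1]
    · rw [indicator_of_notMem hpA, indicator_of_notMem (fun hc => hpA ((hmem p hp1).1 hc)), mul_zero]
  rw [e1]
  obtain ⟨R, hR⟩ := (isCompact_Icc (a := -π) (b := π)).exists_bound_of_continuousOn hρ.continuousOn
  have hint : IntegrableOn (A.indicator (fun p : ℝ × ℝ => p.1 * g p.2))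
      (Ioi (0:ℝ) ×ˢ Ioo (-π) π) (volume.prod volume) := by
    rw [integrableOn_indicator_iff hAm]
    have hc : Continuous fun p : ℝ × ℝ => p.1 * g p.2 := by fun_prop
    have hcomp : IsCompact (Icc (0:ℝ) R ×ˢ Icc (-π) π) := isCompact_Icc.prod isCompact_Icc
    refine (hc.continuousOn.integrableOn_compact hcomp).mono_set ?_
    rintro p ⟨hpA, hp⟩
    refine ⟨⟨(mem_Ioi.1 hp.1).le, ?_⟩, Ioo_subset_Icc_self hp.2⟩
    have := hR p.2 (Ioo_subset_Icc_self hp.2)
    have h2 : p.1 ≤ rho N p.2 := hpA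
    exact h2.trans ((le_abs_self _).trans this)
  rw [Measure.volume_eq_prod, ← Measure.prod_restrict,
    integral_prod_symm _ (by rw [Measure.prod_restrict]; exact hint)]
  have e2 : ∀ θ : ℝ, ∫ r in Ioi (0:ℝ), A.indicator (fun p : ℝ × ℝ => p.1 * g p.2) (r, θ) =
      rho N θ ^ 2 / 2 * g θ := by
    intro θ
    have hpos := h.rho_pos θ
    have e3 : ∀ r : ℝ, A.indicator (fun p : ℝ × ℝ => p.1 * g p.2) (r, θ) =
        (Iic (rho N θ)).indicator (fun r => r * g θ) r := by
      intro r
      by_cases hr : r ≤ rho N θ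
      · rw [indicator_of_mem (show (r, θ) ∈ A from hr), indicator_of_mem (mem_Iic.2 hr)]
      · rw [indicator_of_notMem (show (r, θ) ∉ A from hr), indicator_of_notMem (show r ∉ Iic (rho N θ) from hr)]
    simp_rw [e3]
    rw [setIntegral_indicator measurableSet_Iic, Ioi_inter_Iic,
      ← intervalIntegral.integral_of_le hpos.le, intervalIntegral.integral_mul_const, integral_id]
    ring
  simp_rw [e2]
  rw [← integral_Ioc_eq_integral_Ioo, ← intervalIntegral.integral_of_le (by linarith [Real.pi_pos])]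
  have hp : Function.Periodic (fun θ => rho N θ ^ 2 / 2 * g θ) (2 * π) := by
    intro θ
    simp only
    rw [h.dir_two_pi_rho, hper]
  have := hp.intervalIntegral_add_eq (-π) 0
  rw [show -π + 2 * π = π by ring, zero_add] at this
  exact this

lemma volume_eq (h : PNorm N) : (volume {z | N z ≤ 1}).toReal = Sq N / 2 := by
  have h1 := h.polar_integral (fun _ => 1) (fun _ => 1) continuous_const (fun _ => rfl)
    (fun _ _ _ => rfl)
  rw [setIntegral_const, smul_eq_mul, mul_one] at h1
  simp only [mul_one] at h1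
  rw [intervalIntegral.integral_div] at h1
  exact h1

lemma EK_eq (h : PNorm N) {K : Set E2} (hK : K = {z | N z ≤ 1}) (hg : gauge K = N) :
    EK K = sprawl N := by
  have hρ := h.continuous_rho
  have hN := h.cont
  have hd := continuous_dir
  have hS := h.Sq_pos
  have hnorm : ∀ r θ : ℝ, 0 < r → (N (r • dir θ))⁻¹ • (r • dir θ) = rho N θ • dir θ := by
    intro r θ hr
    have := h.pos _ (dir_ne_zero θ)
    rw [h.smul_nonneg hr.le, smul_smul]
    congr 1
    unfold rho
    field_simp
  have hdp : ∀ θ, dir (θ + 2 * π) = dir θ := dir_add_two_pi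
  unfold EK
  rw [hg, hK, h.volume_eq]
  have inner : ∀ w : E2, ∫ y in {z | N z ≤ 1}, N (w - (N y)⁻¹ • y) =
      ∫ φ in (0:ℝ)..(2 * π), rho N φ ^ 2 / 2 * N (w - rho N φ • dir φ) := by
    intro w
    refine h.polar_integral _ (fun φ => N (w - rho N φ • dir φ)) (by fun_prop) ?_ ?_
    · intro φ
      simp only
      rw [h.dir_two_pi_rho, hdp]
    · intro r θ hr
      rw [hnorm r θ hr]
  simp_rw [inner]
  rw [h.polar_integral _ (fun θ => ∫ φ in (0:ℝ)..(2 * π), rho N φ ^ 2 / 2 *
      N (rho N θ • dir θ - rho N φ • dir φ))]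
  · unfold sprawl wt
    rw [← intervalIntegral.integral_div]
    refine intervalIntegral.integral_congr fun θ _ => ?_
    have e : ∫ φ in (0:ℝ)..(2 * π), rho N φ ^ 2 / 2 * N (rho N θ • dir θ - rho N φ • dir φ) =
        (Sq N / 2) * ∫ φ in (0:ℝ)..(2 * π), N (rho N θ • dir θ - rho N φ • dir φ) *
          (rho N φ ^ 2 / Sq N) := by
      rw [← intervalIntegral.integral_const_mul]
      refine intervalIntegral.integral_congr fun φ _ => ?_
      field_simp
    rw [e]
    field_simp
  · apply intervalIntegral.continuous_parametric_intervalIntegral_of_continuous'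
    fun_prop
  · intro θ
    simp only
    rw [h.dir_two_pi_rho, hdp]
  · intro r θ hr
    rw [hnorm r θ hr]

end PNorm

/-- The gauge of the unit ball of a norm is the norm. -/
lemma gauge_ball {N : E2 → ℝ} (h : PNorm N) : gauge {z | N z ≤ 1} = N := by
  funext z
  by_cases hz : z = 0
  · rw [hz, gauge_zero, h.zero]
  have hpos := h.pos z hz
  apply le_antisymm
  · apply gauge_le_of_mem hpos.le
    rw [mem_smul_set_iff_inv_smul_mem₀ hpos.ne']
    change N _ ≤ 1
    rw [h.smul_nonneg (by positivity), inv_mul_cancel₀ hpos.ne']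
  · rw [gauge_def']
    refine le_csInf ⟨N z, hpos, ?_⟩ ?_
    · change N _ ≤ 1
      rw [h.smul_nonneg (by positivity), inv_mul_cancel₀ hpos.ne']
    · rintro r ⟨hr, hr'⟩
      have hr0 : 0 < r := hr
      have h1 : N (r⁻¹ • z) ≤ 1 := hr'
      rw [h.smul_nonneg (by positivity), inv_mul_le_iff₀ hr0, mul_one] at h1
      exact h1

/-- A symmetric convex body is the unit ball of its gauge, which is a norm. -/
lemma body_norm {K : Set E2} (hc : Convex ℝ K) (hK : IsCompact K) (hi : (interior K).Nonempty)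
    (hs : ∀ x ∈ K, -x ∈ K) : PNorm (gauge K) ∧ K = {z | gauge K z ≤ 1} := by
  have h0 : K ∈ 𝓝 (0 : E2) := by
    obtain ⟨z, hz⟩ := hi
    have hz' : -z ∈ interior K := by
      have hneg : (Homeomorph.neg E2) '' K = K := by
        ext x
        constructor
        · rintro ⟨y, hy, rfl⟩
          exact hs y hy
        · intro hx
          exact ⟨-x, hs x hx, neg_neg x⟩
      have := (Homeomorph.neg E2).image_interior K
      rw [hneg] at this
      rw [← this]
      exact ⟨z, hz, rfl⟩
    have hmid := hc.interior hz hz' (by norm_num : (0:ℝ) ≤ 1/2) (by norm_num : (0:ℝ) ≤ 1/2)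
      (by norm_num)
    rw [smul_neg, add_neg_cancel] at hmid
    exact mem_interior_iff_mem_nhds.1 hmid
  have habs : Absorbent ℝ K := absorbent_nhds_zero h0
  refine ⟨⟨continuous_gauge hc h0, ?_, fun z w => gauge_add_le hc habs z w, ?_⟩, ?_⟩
  · intro c z
    rcases le_total 0 c with hcc | hcc
    · rw [gauge_smul_of_nonneg hcc, smul_eq_mul, abs_of_nonneg hcc]
    · have e : c • z = -((-c) • z) := by rw [neg_smul, neg_neg]
      rw [e, gauge_neg hs, gauge_smul_of_nonneg (by linarith), smul_eq_mul, abs_of_nonpos hcc]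
  · intro z hz
    exact (gauge_pos habs (NormedSpace.isVonNBounded_of_isBounded ℝ hK.isBounded)).2 hz
  · ext z
    rw [mem_ofPred_eq, gauge_le_one_iff_mem_closure hc h0, hK.isClosed.closure_eq]

/-- The ball of a norm is a symmetric convex body. -/
lemma norm_body {N : E2 → ℝ} (h : PNorm N) : Convex ℝ {z | N z ≤ 1} ∧ IsCompact {z | N z ≤ 1} ∧
    (interior {z | N z ≤ 1}).Nonempty ∧ ∀ x ∈ {z | N z ≤ 1}, -x ∈ {z | N z ≤ 1} := by
  refine ⟨?_, ?_, ?_, ?_⟩
  · intro z hz w hw a b ha hb hab
    change N _ ≤ 1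
    have h1 := h.add_le (a • z) (b • w)
    rw [h.smul_nonneg ha, h.smul_nonneg hb] at h1
    have hz' : N z ≤ 1 := hz
    have hw' : N w ≤ 1 := hw
    nlinarith
  · -- bounded: N z ≥ m ‖z‖
    have hcs : IsCompact (Metric.sphere (0:E2) 1) := isCompact_sphere 0 1
    obtain ⟨z₀, hz₀, hmin⟩ := hcs.exists_isMinOn (NormedSpace.sphere_nonempty.2 zero_le_one)
      h.cont.continuousOn
    have hz0 : z₀ ≠ 0 := by
      rintro rfl
      simp at hz₀
    have hm := h.pos z₀ hz0
    refine Metric.isCompact_of_isClosed_isBounded (isClosed_le h.cont continuous_const) ?_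
    refine (Metric.isBounded_closedBall (x := (0:E2)) (r := 1 / N z₀)).subset ?_
    intro z hz
    rw [mem_closedBall, dist_zero_right]
    by_cases hz' : z = 0
    · rw [hz', norm_zero]; positivity
    have hn : 0 < ‖z‖ := norm_pos_iff.2 hz'
    have h1 : N z₀ ≤ N (‖z‖⁻¹ • z) := hmin (by
      rw [mem_sphere, dist_zero_right, norm_smul, norm_inv, norm_norm, inv_mul_cancel₀ hn.ne'])
    rw [h.smul_nonneg (by positivity)] at h1
    have hz1 : N z ≤ 1 := hz
    rw [le_div_iff₀ hm]
    have h2 : ‖z‖ * N z₀ ≤ ‖z‖ * (‖z‖⁻¹ * N z) := mul_le_mul_of_nonneg_left h1 hn.le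
    rw [← mul_assoc, mul_inv_cancel₀ hn.ne', one_mul] at h2
    linarith
  · refine ⟨0, mem_interior.2 ⟨{z | N z < 1}, fun z hz => (le_of_lt hz : N z ≤ 1),
      isOpen_lt h.cont continuous_const, ?_⟩⟩
    change N 0 < 1
    rw [h.zero]; norm_num
  · intro z hz
    change N (-z) ≤ 1
    rw [h.neg]; exact hz

end Pool.Agent.H78Sprawl
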