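import Pool.Agent.H78Sprawl.Curve

set_option autoImplicit false

open MeasureTheory Set Metric
open scoped Real

namespace Pool.Agent.H78Sprawl

open Pool.Agent.H78String

/-- reflection -/
def refl (v : E2) : E2 := !₂[v 0, - v 1]

lemma refl_zero (v : E2) : refl v 0 = v 0 := by simp [refl]
lemma refl_one (v : E2) : refl v 1 = - v 1 := by simp [refl]

lemma refl_refl (v : E2) : refl (refl v) = v := by
  apply ext2
  · rw [refl_zero, refl_zero]
  · rw [refl_one, refl_one, neg_neg]

lemma refl_smul (c : ℝ) (v : E2) : refl (c • v) = c • refl v := by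
  apply ext2
  · rw [refl_zero, PiLp.smul_apply, PiLp.smul_apply, refl_zero]
  · rw [refl_one, PiLp.smul_apply, PiLp.smul_apply, refl_one, smul_neg]

lemma refl_add (v w : E2) : refl (v + w) = refl v + refl w := by
  apply ext2
  · rw [refl_zero, PiLp.add_apply, PiLp.add_apply, refl_zero, refl_zero]
  · rw [refl_one, PiLp.add_apply, PiLp.add_apply, refl_one, refl_one]; ring

lemma refl_neg (v : E2) : refl (-v) = - refl v := by
  have := refl_smul (-1) v
  simpa using this

lemma refl_ne_zero {v : E2} (hv : v ≠ 0) : refl v ≠ 0 := by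
  intro h
  apply hv
  rw [← refl_refl v, h]
  apply ext2
  · rw [refl_zero]
  · rw [refl_one]; simp

lemma continuous_refl : Continuous refl := by
  unfold refl
  fun_prop

lemma det2_refl_left (u v : E2) : det2 (refl u) v = - det2 u (refl v) := by
  simp only [det2, refl_zero, refl_one]; ring

lemma det2_refl (u v : E2) : det2 (refl u) (refl v) = - det2 u v := by
  rw [det2_refl_left, refl_refl]

namespace Curve

variable {N : E2 → ℝ} {x : ℝ → E2}

lemma det_nonneg (h : Curve N x) {b c : ℝ} (hbc : b ≤ c) (hc : c ≤ b + 1/2) :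
    0 ≤ det2 (x b) (x c) := by
  rcases hbc.lt_or_eq with h' | h'
  · rcases hc.lt_or_eq with h'' | h''
    · exact (h.pos b c h' h'').le
    · rw [h'', h.half, det2_neg_right, det2_self, neg_zero]
  · rw [h', det2_self]

/-- `det (x a) (x b) / (b - a)` is antitone in `b`. -/
lemma ratio_left (h : Curve N x) {a b c : ℝ} (hab : a < b) (hbc : b < c) (hc : c < a + 1/2) :
    (b - a) * det2 (x a) (x c) ≤ (c - a) * det2 (x a) (x b) := by
  have hD := h.pos a c (hab.trans hbc) hc
  have hD1 := h.pos b c hbc (by linarith)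
  have hD2 := h.pos a b hab (by linarith)
  have hle := h.chord_le hbc (by linarith)
  by_cases hcase : det2 (x a) (x c) ≤ det2 (x a) (x b)
  · nlinarith
  push Not at hcase
  set q : E2 := x b - x c with hq
  have hL : ∀ t, det2 q (x t) = det2 (x t) (x c) - det2 (x t) (x b) := by
    intro t
    rw [hq, det2_sub_left, det2_swap (x b) (x t), det2_swap (x c) (x t)]; ring
  have hLa : 0 < det2 q (x a) := by rw [hL]; linarith
  have hLb : det2 q (x b) = det2 (x b) (x c) := by rw [hL, det2_self]; ring
  have hLle : ∀ t ∈ Icc a b, det2 q (x t) ≤ det2 (x b) (x c) := by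
    intro t ht
    have := h.beyond ht.2 hbc.le (by linarith [ht.2]) (by linarith [ht.1])
    rw [hL]; linarith
  have hLpos : ∀ t ∈ Icc a b, 0 < det2 q (x t) := by
    intro t ht
    have h1 := h.beyond ht.1 ht.2 hab (by linarith)
    have h2 : 0 ≤ det2 (x a) (x t) := h.det_nonneg ht.1 (by linarith [ht.2])
    have h3 : 0 ≤ det2 (x t) (x b) := h.det_nonneg ht.2 (by linarith [ht.1])
    have h4 : det2 (x a) (x b) * det2 q (x t) =
        det2 (x t) (x b) * det2 q (x a) + det2 (x a) (x t) * det2 q (x b) := by
      simp only [det2]; ring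
    have h5 : 0 < det2 q (x b) := by rw [hLb]; exact hD1
    have h6 : 0 < det2 (x a) (x b) * det2 q (x t) := by
      rw [h4]
      rcases h2.lt_or_eq with h' | h'
      · have := mul_pos h' h5
        have := mul_nonneg h3 hLa.le
        linarith
      · have h7 : 0 < det2 (x t) (x b) := by linarith
        have := mul_pos h7 hLa
        rw [← h']; linarith
    exact (mul_pos_iff_of_pos_left hD2).1 h6
  have hder : ∀ t ∈ Icc a b, HasDerivAt (fun s => det2 (x b) (x s) / det2 q (x s) * det2 (x b) (x c))
      (det2 q (x b) / det2 q (x t) ^ 2 * det2 (x b) (x c)) t := fun t ht =>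
    (h.deriv (x b) q t (hLpos t ht).ne').mul_const _
  have key := monotone_aux hab.le hder (by
    intro t ht
    have h1 := hLle t ht
    have h2 := hLpos t ht
    rw [hLb, div_mul_eq_mul_div, one_le_div (by positivity)]
    nlinarith)
  simp only [det2_self, zero_div, zero_mul, zero_sub] at key
  rw [det2_swap (x b) (x a), hL, neg_div, neg_mul, neg_neg, div_mul_eq_mul_div,
    le_div_iff₀ (by linarith)] at key
  nlinarith

lemma reverse (h : Curve N x) : Curve (fun z => N (refl z)) (fun t => refl (x (-t))) where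
  norm :=
    { cont := h.norm.cont.comp continuous_refl
      smul := fun c z => by rw [refl_smul, h.norm.smul]
      add_le := fun z w => by rw [refl_add]; exact h.norm.add_le _ _
      pos := fun z hz => h.norm.pos _ (refl_ne_zero hz) }
  cont := continuous_refl.comp (h.cont.comp continuous_neg)
  unit := fun t => by simp only [refl_refl]; exact h.unit _
  half := fun t => by
    have := h.half (-(t + 1/2))
    rw [show -(t + 1/2) + 1/2 = -t by ring] at this
    rw [this, refl_neg, neg_neg]
  pos := fun b c hbc hc => by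
    rw [det2_refl, ← det2_swap]
    exact h.pos _ _ (by linarith) (by linarith)
  deriv := fun p q t hq => by
    have hq' : det2 (refl q) (x (-t)) ≠ 0 := by
      rw [det2_refl_left]; exact neg_ne_zero.2 hq
    have h1 := (h.deriv (refl p) (refl q) (-t) hq').comp t (hasDerivAt_neg t)
    have e : (fun s => det2 p (refl (x (-s))) / det2 q (refl (x (-s)))) =
        (fun s => det2 (refl p) (x s) / det2 (refl q) (x s)) ∘ Neg.neg := by
      funext s
      simp only [Function.comp, det2_refl_left, neg_div_neg_eq]
    rw [e]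
    refine h1.congr_deriv ?_
    rw [det2_refl, det2_refl_left q]
    ring

/-- `det (x b) (x c) / (c - b)` is monotone in `b`. -/
lemma ratio_right (h : Curve N x) {a b c : ℝ} (hab : a < b) (hbc : b < c) (hc : c < a + 1/2) :
    (c - b) * det2 (x a) (x c) ≤ (c - a) * det2 (x b) (x c) := by
  have := h.reverse.ratio_left (a := -c) (b := -b) (c := -a) (by linarith) (by linarith)
    (by linarith)
  simp only [neg_neg, det2_refl, ← det2_swap] at this
  linarith

/-- Concavity of `t ↦ det (x a₀) (x t)` on a half period. -/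
lemma concaveOn_det (h : Curve N x) (t₀ : ℝ) :
    ConcaveOn ℝ (Icc 0 (1/2)) (fun t => det2 (x t₀) (x (t₀ + t))) := by
  have key : ∀ a b c : ℝ, 0 ≤ a → a < b → b < c → c ≤ 1/2 →
      (c - b) * det2 (x t₀) (x (t₀ + a)) + (b - a) * det2 (x t₀) (x (t₀ + c)) ≤
        (c - a) * det2 (x t₀) (x (t₀ + b)) := by
    intro a b c ha hab hbc hc
    have hGa : 0 ≤ det2 (x t₀) (x (t₀ + a)) := h.det_nonneg (by linarith) (by linarith)
    have hGb : 0 ≤ det2 (x t₀) (x (t₀ + b)) := h.det_nonneg (by linarith) (by linarith)
    have hGc : 0 ≤ det2 (x t₀) (x (t₀ + c)) := h.det_nonneg (by linarith) (by linarith)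
    by_cases hfull : c < a + 1/2
    · have hD := h.pos (t₀ + a) (t₀ + c) (by linarith) (by linarith)
      have h1 := h.ratio_left (a := t₀ + a) (b := t₀ + b) (c := t₀ + c) (by linarith) (by linarith)
        (by linarith)
      have h2 := h.ratio_right (a := t₀ + a) (b := t₀ + b) (c := t₀ + c) (by linarith) (by linarith)
        (by linarith)
      have h3 : det2 (x (t₀ + a)) (x (t₀ + c)) * det2 (x t₀) (x (t₀ + b)) =
          det2 (x (t₀ + b)) (x (t₀ + c)) * det2 (x t₀) (x (t₀ + a)) +
          det2 (x (t₀ + a)) (x (t₀ + b)) * det2 (x t₀) (x (t₀ + c)) := by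
        simp only [det2]; ring
      have h4 : det2 (x (t₀ + a)) (x (t₀ + c)) * ((c - b) * det2 (x t₀) (x (t₀ + a)) +
          (b - a) * det2 (x t₀) (x (t₀ + c))) ≤
          det2 (x (t₀ + a)) (x (t₀ + c)) * ((c - a) * det2 (x t₀) (x (t₀ + b))) := by
        have e : det2 (x (t₀ + a)) (x (t₀ + c)) * ((c - a) * det2 (x t₀) (x (t₀ + b))) =
          (c - a) * (det2 (x (t₀ + b)) (x (t₀ + c)) * det2 (x t₀) (x (t₀ + a)) +
          det2 (x (t₀ + a)) (x (t₀ + b)) * det2 (x t₀) (x (t₀ + c))) := by rw [← h3]; ring
        rw [e]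
        have h5 := mul_le_mul_of_nonneg_right h1 hGc
        have h6 := mul_le_mul_of_nonneg_right h2 hGa
        nlinarith
      exact le_of_mul_le_mul_left h4 hD
    · have ha0 : a = 0 := by linarith
      have hc0 : c = 1/2 := by linarith
      rw [ha0, hc0, h.half, add_zero, det2_neg_right, det2_self]
      rw [ha0] at hab
      simp only [mul_zero, neg_zero, add_zero]
      exact mul_nonneg (by norm_num) hGb
  refine LinearOrder.concaveOn_of_lt (convex_Icc _ _) ?_
  intro u hu v hv huv a b ha hb hab
  have hb' : b = 1 - a := by linarith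
  have h1 : u < a • u + b • v := by simp only [smul_eq_mul]; rw [hb']; nlinarith
  have h2 : a • u + b • v < v := by simp only [smul_eq_mul]; rw [hb']; nlinarith
  have := key u (a • u + b • v) v hu.1 h1 h2 hv.2
  simp only [smul_eq_mul] at this ⊢
  have e1 : v - (a * u + b * v) = a * (v - u) := by rw [hb']; ring
  have e2 : a * u + b * v - u = b * (v - u) := by rw [hb']; ring
  rw [e1, e2] at this
  have h3 : (v - u) * (a * det2 (x t₀) (x (t₀ + u)) + b * det2 (x t₀) (x (t₀ + v))) ≤
    (v - u) * det2 (x t₀) (x (t₀ + (a * u + b * v))) := by linarith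
  exact le_of_mul_le_mul_left h3 (by linarith)

end Curve

end Pool.Agent.H78Sprawl
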