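import Pool.Agent.H78Sprawl.Ends

set_option autoImplicit false

open MeasureTheory Set Metric Filter
open scoped Real Topology

namespace Pool.Agent.H78Sprawl

open Pool.Agent.H78String
open PNorm (sprawl nrm)

lemma four_fold {f : ℝ → ℝ} (hf : Continuous f) (hp : Function.Periodic f (π / 2)) :
    ∫ θ in (0:ℝ)..(2 * π), f θ = 4 * ∫ θ in (-(π / 4))..(π / 4), f θ := by
  have hi : ∀ a b : ℝ, IntervalIntegrable f volume a b := fun a b => hf.intervalIntegrable a b
  have h1 := hp.intervalIntegral_add_eq 0 (-(π / 4))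
  have h2 := hp.intervalIntegral_add_eq (π / 2) (-(π / 4))
  have h3 := hp.intervalIntegral_add_eq π (-(π / 4))
  have h4 := hp.intervalIntegral_add_eq (3 * π / 2) (-(π / 4))
  rw [show -(π / 4) + π / 2 = π / 4 by ring] at h1 h2 h3 h4
  rw [zero_add] at h1
  rw [show π / 2 + π / 2 = π by ring] at h2
  rw [show π + π / 2 = 3 * π / 2 by ring] at h3
  rw [show 3 * π / 2 + π / 2 = 2 * π by ring] at h4
  rw [← intervalIntegral.integral_add_adjacent_intervals (hi 0 (π / 2)) (hi (π / 2) (2 * π)),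
    ← intervalIntegral.integral_add_adjacent_intervals (hi (π / 2) π) (hi π (2 * π)),
    ← intervalIntegral.integral_add_adjacent_intervals (hi π (3 * π / 2)) (hi (3 * π / 2) (2 * π)),
    h1, h2, h3, h4]
  ring

lemma rho_mx (θ : ℝ) : rho mx θ = 1 / max |Real.cos θ| |Real.sin θ| := by
  unfold rho mx
  rw [dir_zero, dir_one]

lemma rho_mx_quarter (θ : ℝ) : rho mx (θ + π / 2) = rho mx θ := by
  rw [rho_mx, rho_mx, Real.cos_add_pi_div_two, Real.sin_add_pi_div_two, abs_neg, max_comm]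

lemma cos_pos_quarter {θ : ℝ} (h : θ ∈ Icc (-(π / 4)) (π / 4)) : 0 < Real.cos θ :=
  Real.cos_pos_of_mem_Ioo ⟨by linarith [h.1, Real.pi_pos], by linarith [h.2, Real.pi_pos]⟩

lemma rho_mx_sec {θ : ℝ} (h : θ ∈ Icc (-(π / 4)) (π / 4)) : rho mx θ = 1 / Real.cos θ := by
  have hc := cos_pos_quarter h
  rw [rho_mx]
  congr 1
  rw [abs_of_pos hc]
  apply max_eq_left
  have h2 : 0 ≤ Real.cos (2 * θ) :=
    Real.cos_nonneg_of_mem_Icc ⟨by linarith [h.1], by linarith [h.2]⟩
  rw [Real.cos_two_mul] at h2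
  have h3 := Real.sin_sq_add_cos_sq θ
  exact abs_le_of_sq_le_sq (by nlinarith) hc.le

lemma continuousOn_cos_inv (n : ℕ) :
    ContinuousOn (fun θ : ℝ => 1 / Real.cos θ ^ n) (uIcc (-(π / 4)) (π / 4)) := by
  rw [uIcc_of_le (by linarith [Real.pi_pos])]
  exact continuousOn_const.div (Real.continuous_cos.pow n).continuousOn
    fun θ hθ => (pow_pos (cos_pos_quarter hθ) n).ne'

lemma int_sec2 : ∫ θ in (-(π / 4))..(π / 4), 1 / Real.cos θ ^ 2 = 2 := by
  rw [intervalIntegral.integral_eq_sub_of_hasDerivAt (f := Real.tan)]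
  · rw [Real.tan_neg, Real.tan_pi_div_four]; norm_num
  · intro θ hθ
    rw [uIcc_of_le (by linarith [Real.pi_pos])] at hθ
    exact Real.hasDerivAt_tan (cos_pos_quarter hθ).ne'
  · exact (continuousOn_cos_inv 2).intervalIntegrable

lemma int_sec4 : ∫ θ in (-(π / 4))..(π / 4), 1 / Real.cos θ ^ 4 = 8 / 3 := by
  rw [intervalIntegral.integral_eq_sub_of_hasDerivAt (f := fun θ => Real.tan θ + Real.tan θ ^ 3 / 3)]
  · rw [Real.tan_neg, Real.tan_pi_div_four]; norm_num
  · intro θ hθ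
    rw [uIcc_of_le (by linarith [Real.pi_pos])] at hθ
    have hc := (cos_pos_quarter hθ)
    have h1 := Real.hasDerivAt_tan hc.ne'
    have h2 := h1.fun_add ((h1.fun_pow 3).div_const 3)
    refine h2.congr_deriv ?_
    rw [Real.tan_eq_sin_div_cos]
    have h3 := Real.sin_sq_add_cos_sq θ
    have h4 : Real.sin θ ^ 2 = 1 - Real.cos θ ^ 2 := by linarith
    norm_num
    field_simp
    rw [h4]
    ring
  · exact (continuousOn_cos_inv 4).intervalIntegrable

lemma Sq_mx : Sq mx = 8 := by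
  unfold Sq
  have hρ := pnorm_mx.continuous_rho
  rw [four_fold (f := fun θ => rho mx θ ^ 2) (hρ.pow 2) (fun θ => by simp only [rho_mx_quarter])]
  have : ∫ θ in (-(π / 4))..(π / 4), rho mx θ ^ 2 =
      ∫ θ in (-(π / 4))..(π / 4), 1 / Real.cos θ ^ 2 := by
    refine intervalIntegral.integral_congr fun θ hθ => ?_
    rw [uIcc_of_le (by linarith [Real.pi_pos])] at hθ
    rw [rho_mx_sec hθ]; ring
  rw [this, int_sec2]; norm_num

lemma wt_mx_quarter : Function.Periodic (wt mx) (π / 2) := by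
  intro θ
  unfold wt
  rw [rho_mx_quarter]

lemma int_wt_sq : ∫ θ in (0:ℝ)..(2 * π), wt mx θ * wt mx θ = 1 / 6 := by
  have hw := pnorm_mx.continuous_wt
  rw [four_fold (f := fun θ => wt mx θ * wt mx θ) (hw.mul hw)
    (fun θ => by simp only [wt_mx_quarter θ])]
  have : ∫ θ in (-(π / 4))..(π / 4), wt mx θ * wt mx θ =
      ∫ θ in (-(π / 4))..(π / 4), (1 / 64) * (1 / Real.cos θ ^ 4) := by
    refine intervalIntegral.integral_congr fun θ hθ => ?_
    rw [uIcc_of_le (by linarith [Real.pi_pos])] at hθ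
    simp only [wt]
    rw [rho_mx_sec hθ, Sq_mx]; ring
  rw [this, intervalIntegral.integral_const_mul, int_sec4]; norm_num

lemma Tf_mx_quarter (θ : ℝ) : Tf mx (θ + π / 2) = Tf mx θ + 1/4 := by
  have hw := pnorm_mx.continuous_wt
  have hi : ∀ a b : ℝ, IntervalIntegrable (wt mx) volume a b := fun a b =>
    hw.intervalIntegrable a b
  have h1 := wt_mx_quarter.intervalIntegral_add_eq θ (-(π / 4))
  have h2 := pnorm_mx.Tf_two_pi
  unfold Tf at h2
  rw [four_fold hw wt_mx_quarter] at h2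
  rw [show -(π / 4) + π / 2 = π / 4 by ring] at h1
  unfold Tf
  rw [← intervalIntegral.integral_add_adjacent_intervals (hi 0 θ) (hi θ (θ + π / 2)), h1]
  linarith

lemma Th_mx_quarter (t : ℝ) : pnorm_mx.Th (t + 1/4) = pnorm_mx.Th t + π / 2 := by
  apply pnorm_mx.strictMono_Tf.injective
  rw [pnorm_mx.Tf_Th, Tf_mx_quarter, pnorm_mx.Tf_Th]

theorem sprawl_mx : 4 / 3 ≤ sprawl mx := by
  rw [pnorm_mx.sprawl_eq]
  refine le_trans ?_ pnorm_mx.curve.lower_C
  have hS := pnorm_mx.Sq_pos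
  have h1 : Curve.Cf pnorm_mx.cur (1/4) = ∫ t in (0:ℝ)..1, wt mx (pnorm_mx.Th t) := by
    unfold Curve.Cf
    refine intervalIntegral.integral_congr fun t _ => ?_
    simp only [PNorm.cur]
    rw [Th_mx_quarter, rho_mx_quarter, det2_smul_left, det2_smul_right, det2_dir,
      add_sub_cancel_left, Real.sin_pi_div_two]
    unfold wt
    rw [mul_one, div_mul_div_comm, Real.mul_self_sqrt hS.le, sq]
  rw [h1, ← pnorm_mx.param_integral pnorm_mx.continuous_wt, int_wt_sq]
  norm_num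

/-- Every symmetric convex body in the plane has sprawl at most that of the square, at least that
of the disc, and everything in between is attained. -/
theorem planar :
    EK (Metric.closedBall (0 : E2) 1) = 4 / π ∧
    EK {x : E2 | ∀ i : Fin 2, |EuclideanSpace.proj (𝕜 := ℝ) i x| ≤ 1} = 4 / 3 ∧
    {e : ℝ | ∃ K : Set E2, Convex ℝ K ∧ IsCompact K ∧ (interior K).Nonempty ∧
      (∀ x ∈ K, -x ∈ K) ∧ e = EK K} = Set.Icc (4 / π) (4 / 3) := by
  have hball : EK (Metric.closedBall (0 : E2) 1) = sprawl (Nl 0) := by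
    have e : Nl 0 = fun z : E2 => ‖z‖ := by
      funext z; simp [Nl]
    rw [e]
    refine pnorm_norm.EK_eq ?_ ?_
    · ext z; simp
    · rw [← gauge_ball pnorm_norm]
      congr 1
      ext z; simp
  have hsq : EK {x : E2 | ∀ i : Fin 2, |EuclideanSpace.proj (𝕜 := ℝ) i x| ≤ 1} = sprawl (Nl 1) := by
    have e : Nl 1 = mx := by
      funext z; simp [Nl]
    have e2 : {x : E2 | ∀ i : Fin 2, |EuclideanSpace.proj (𝕜 := ℝ) i x| ≤ 1} = {z | mx z ≤ 1} := by
      ext z
      simp [mx, Fin.forall_fin_two]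
    rw [e, e2]
    exact pnorm_mx.EK_eq rfl (gauge_ball pnorm_mx)
  have hb0 : sprawl (Nl 0) = 4 / π := by
    apply le_antisymm
    · have e : Nl 0 = fun z : E2 => ‖z‖ := by
        funext z; simp [Nl]
      rw [e]; exact sprawl_norm
    · exact (pnorm_Nl 0).le_sprawl
  have hb1 : sprawl (Nl 1) = 4 / 3 := by
    apply le_antisymm
    · exact (pnorm_Nl 1).sprawl_le
    · have e : Nl 1 = mx := by
        funext z; simp [Nl]
      rw [e]; exact sprawl_mx
  refine ⟨hball.trans hb0, hsq.trans hb1, ?_⟩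
  ext e
  constructor
  · rintro ⟨K, hc, hK, hi, hs, rfl⟩
    obtain ⟨h1, h2⟩ := body_norm hc hK hi hs
    rw [h1.EK_eq h2 rfl]
    exact ⟨h1.le_sprawl, h1.sprawl_le⟩
  · rintro ⟨he0, he1⟩
    have hr := mem_range_of_exists_le_of_exists_ge continuous_sprawl_Nl (c := e)
      ⟨0, by rw [hb0]; exact he0⟩ ⟨1, by rw [hb1]; exact he1⟩
    obtain ⟨l, hl⟩ := hr
    obtain ⟨h1, h2, h3, h4⟩ := norm_body (pnorm_Nl l)
    refine ⟨{z | Nl l z ≤ 1}, h1, h2, h3, h4, ?_⟩
    rw [(pnorm_Nl l).EK_eq rfl (gauge_ball (pnorm_Nl l))]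
    exact hl.symm

end Pool.Agent.H78Sprawl
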