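import Mathlib

set_option autoImplicit false

open MeasureTheory Set

namespace Pool.Agent.H78Sprawl

/-- An antiperiodic continuous function which is concave on its positive half period. -/
structure Wave (g : ℝ → ℝ) : Prop where
  cont : Continuous g
  anti : ∀ t, g (t + 1/2) = - g t
  zero : g 0 = 0
  pos : ∀ t, 0 < t → t < 1/2 → 0 < g t
  conc : ConcaveOn ℝ (Icc 0 (1/2)) g

namespace Wave

variable {g : ℝ → ℝ}

lemma half_zero (h : Wave g) : g (1/2) = 0 := by
  have := h.anti 0
  rw [zero_add, h.zero, neg_zero] at this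
  exact this

lemma nonneg (h : Wave g) {t : ℝ} (h0 : 0 ≤ t) (h1 : t ≤ 1/2) : 0 ≤ g t := by
  rcases h0.lt_or_eq with h' | h'
  · rcases h1.lt_or_eq with h'' | h''
    · exact (h.pos t h' h'').le
    · rw [h'', h.half_zero]
  · rw [← h', h.zero]

lemma per (h : Wave g) (t : ℝ) : g (t + 1) = g t := by
  have h1 := h.anti t
  have h2 := h.anti (t + 1/2)
  rw [h1, neg_neg] at h2
  rw [← h2]
  congr 1
  ring

/-- three-point concavity -/
lemma three (h : Wave g) {a b c : ℝ} (ha : 0 ≤ a) (hab : a ≤ b) (hbc : b ≤ c) (hc : c ≤ 1/2) :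
    (c - b) * g a + (b - a) * g c ≤ (c - a) * g b := by
  rcases (hab.trans hbc).lt_or_eq with hac | hac
  · have hw : 0 < c - a := by linarith
    have ma : a ∈ Icc (0:ℝ) (1/2) := ⟨ha, by linarith⟩
    have mc : c ∈ Icc (0:ℝ) (1/2) := ⟨by linarith, hc⟩
    have w1 : 0 ≤ (c - b) / (c - a) := div_nonneg (by linarith) hw.le
    have w2 : 0 ≤ (b - a) / (c - a) := div_nonneg (by linarith) hw.le
    have := h.conc.2 ma mc w1 w2 (by field_simp; ring)
    have e : (c - b) / (c - a) * a + (b - a) / (c - a) * c = b := by field_simp; ring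
    simp only [smul_eq_mul] at this
    rw [e] at this
    have e2 : (c - b) * g a + (b - a) * g c =
      (c - a) * ((c - b) / (c - a) * g a + (b - a) / (c - a) * g c) := by field_simp
    rw [e2]
    exact mul_le_mul_of_nonneg_left this hw.le
  · have h1 : b = a := by linarith
    have h2 : c = a := by linarith
    rw [h1, h2]; simp

lemma shift_anti (h : Wave g) {s t r : ℝ} (hs : 0 ≤ s) (hst : s ≤ t) (hr : 0 ≤ r)
    (ht : t + r ≤ 1/2) : g (t + r) - g t ≤ g (s + r) - g s := by
  have h1 := h.three (a := s) (b := t) (c := t + r) hs hst (by linarith) ht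
  have h2 := h.three (a := s) (b := s + r) (c := t + r) hs (by linarith) (by linarith) ht
  rcases (show s ≤ t + r by linarith).lt_or_eq with hlt | heq
  · have hw : 0 < t + r - s := by linarith
    have h3 : (t + r - s) * (g s + g (t + r)) ≤ (t + r - s) * (g t + g (s + r)) := by nlinarith
    have := le_of_mul_le_mul_left h3 hw
    linarith
  · have h1 : t = s := by linarith
    rw [h1]

lemma int_lin (α a b : ℝ) : ∫ t in a..b, α * t = α * ((b ^ 2 - a ^ 2) / 2) := by
  rw [intervalIntegral.integral_const_mul, integral_id]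

lemma int_lin2 (α a b : ℝ) : ∫ t in a..b, α * (1/2 - t) =
    α * (((1/2 - a) ^ 2 - (1/2 - b) ^ 2) / 2) := by
  rw [intervalIntegral.integral_const_mul,
    intervalIntegral.integral_comp_sub_left (fun t => t) (1/2), integral_id]

lemma gint (h : Wave g) (a b : ℝ) : IntervalIntegrable g volume a b := h.cont.intervalIntegrable a b

lemma out_left (h : Wave g) {A : ℝ} (hA : 0 < A) (hA' : A ≤ 1/2) :
    g A * A / 2 ≤ ∫ t in (0:ℝ)..A, g t := by
  have e : g A * A / 2 = ∫ t in (0:ℝ)..A, (g A / A) * t := by rw [int_lin]; field_simp; ring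
  rw [e]
  refine intervalIntegral.integral_mono_on hA.le
    ((by fun_prop : Continuous fun t : ℝ => (g A / A) * t).intervalIntegrable _ _) (h.gint _ _) ?_
  intro t ht
  have := h.three (a := 0) (b := t) (c := A) le_rfl ht.1 ht.2 hA'
  rw [h.zero] at this
  rw [div_mul_eq_mul_div, div_le_iff₀ hA]
  nlinarith

lemma out_right (h : Wave g) {B : ℝ} (hB : 0 ≤ B) (hB' : B < 1/2) :
    g B * (1/2 - B) / 2 ≤ ∫ t in B..(1/2), g t := by
  have hB'' : (1/2 - B) ≠ 0 := by linarith
  have e : g B * (1/2 - B) / 2 = ∫ t in B..(1/2), (g B / (1/2 - B)) * (1/2 - t) := by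
    rw [int_lin2, sub_self, zero_pow two_ne_zero, sub_zero, div_mul_eq_mul_div, eq_div_iff hB'']
    ring
  rw [e]
  refine intervalIntegral.integral_mono_on (by linarith)
    ((by fun_prop : Continuous fun t : ℝ => (g B / (1/2 - B)) * (1/2 - t)).intervalIntegrable _ _)
    (h.gint _ _) ?_
  intro t ht
  have := h.three (a := B) (b := t) (c := 1/2) hB ht.1 ht.2 le_rfl
  rw [h.half_zero] at this
  rw [div_mul_eq_mul_div, div_le_iff₀ (by linarith)]
  nlinarith

lemma in_left (h : Wave g) {A m : ℝ} (hA : 0 < A) (hm : A ≤ m) (hm' : m ≤ 1/2) :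
    ∫ t in A..m, g t ≤ g A / A * ((m ^ 2 - A ^ 2) / 2) := by
  rw [← int_lin]
  refine intervalIntegral.integral_mono_on hm (h.gint _ _)
    ((by fun_prop : Continuous fun t : ℝ => (g A / A) * t).intervalIntegrable _ _) ?_
  intro t ht
  have := h.three (a := 0) (b := A) (c := t) le_rfl hA.le ht.1 (by linarith [ht.2])
  rw [h.zero] at this
  rw [div_mul_eq_mul_div, le_div_iff₀ hA]
  nlinarith

lemma in_right (h : Wave g) {B m : ℝ} (hB : B < 1/2) (hm : m ≤ B) (hm' : 0 ≤ m) :
    ∫ t in m..B, g t ≤ g B / (1/2 - B) * (((1/2 - m) ^ 2 - (1/2 - B) ^ 2) / 2) := by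
  rw [← int_lin2]
  refine intervalIntegral.integral_mono_on hm (h.gint _ _)
    ((by fun_prop : Continuous fun t : ℝ => (g B / (1/2 - B)) * (1/2 - t)).intervalIntegrable _ _) ?_
  intro t ht
  have := h.three (a := t) (b := B) (c := 1/2) (by linarith [ht.1]) ht.2 hB.le le_rfl
  rw [h.half_zero] at this
  rw [div_mul_eq_mul_div, le_div_iff₀ (by linarith)]
  nlinarith

lemma level_alg {c u A B' J1 J2 O1 O2 : ℝ} (hc : 0 < c) (hc1 : c ≤ 1)
    (hAB : A + B' = c / 2)
    (hJ1 : J1 ≤ u * A * (1 / c ^ 2 - 1) / 2) (hJ2 : J2 ≤ u * B' * (1 / c ^ 2 - 1) / 2)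
    (hO1 : u * A / 2 ≤ O1) (hO2 : u * B' / 2 ≤ O2) :
    J1 + J2 ≤ (1 - c ^ 2) * (O1 + (J1 + J2) + O2) := by
  have hc2 : 0 < c ^ 2 := by positivity
  have h1 : c ^ 2 * J1 ≤ u * A * (1 - c ^ 2) / 2 := by
    have := mul_le_mul_of_nonneg_left hJ1 hc2.le
    have e : c ^ 2 * (u * A * (1 / c ^ 2 - 1) / 2) = u * A * (1 - c ^ 2) / 2 := by field_simp
    linarith
  have h2 : c ^ 2 * J2 ≤ u * B' * (1 - c ^ 2) / 2 := by
    have := mul_le_mul_of_nonneg_left hJ2 hc2.le
    have e : c ^ 2 * (u * B' * (1 / c ^ 2 - 1) / 2) = u * B' * (1 - c ^ 2) / 2 := by field_simp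
    linarith
  have h3 : 0 ≤ 1 - c ^ 2 := by nlinarith
  have h4 := mul_le_mul_of_nonneg_left hO1 h3
  have h5 := mul_le_mul_of_nonneg_left hO2 h3
  linarith

lemma level (h : Wave g) {A r : ℝ} (hA : 0 < A) (hr : 0 < r) (hB : A + r < 1/2)
    (he : g A = g (A + r)) :
    ∫ t in A..(A + r), g t ≤ (4 * r - 4 * r ^ 2) * ∫ t in (0:ℝ)..(1/2), g t := by
  have hcpos : 0 < 1 - 2 * r := by linarith
  obtain ⟨c, hc⟩ : ∃ c, c = 1 - 2 * r := ⟨_, rfl⟩
  rw [← hc] at hcpos
  obtain ⟨m, hm⟩ : ∃ m, m = A / c := ⟨_, rfl⟩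
  have hmA : A ≤ m := by
    rw [hm, le_div_iff₀ hcpos, hc]; nlinarith
  have hmB : m ≤ A + r := by
    rw [hm, div_le_iff₀ hcpos, hc]; nlinarith
  have i1 := h.in_left hA hmA (by linarith)
  have i2 := h.in_right hB hmB (by linarith)
  have o1 := h.out_left hA (by linarith)
  have o2 := h.out_right (B := A + r) (by linarith) hB
  rw [← he] at i2 o2
  have e1 : g A / A * ((m ^ 2 - A ^ 2) / 2) = g A * A * (1 / c ^ 2 - 1) / 2 := by
    rw [hm]; field_simp
  have e2 : g A / (1/2 - (A + r)) * (((1/2 - m) ^ 2 - (1/2 - (A + r)) ^ 2) / 2) =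
      g A * (1/2 - (A + r)) * (1 / c ^ 2 - 1) / 2 := by
    have h1 : 1/2 - m = (1/2 - (A + r)) / c := by
      rw [eq_div_iff hcpos.ne', hm, sub_mul, div_mul_cancel₀ _ hcpos.ne', hc]; ring
    have hB'' : (1/2 - (A + r)) ≠ 0 := by linarith
    rw [h1]
    generalize (1/2 - (A + r)) = w at hB''
    field_simp
  rw [e1] at i1
  rw [e2] at i2
  have := level_alg hcpos (by linarith) (by rw [hc]; ring) i1 i2 o1 o2
  rw [intervalIntegral.integral_add_adjacent_intervals (h.gint _ _) (h.gint _ _),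
    intervalIntegral.integral_add_adjacent_intervals (h.gint _ _) (h.gint _ _),
    intervalIntegral.integral_add_adjacent_intervals (h.gint _ _) (h.gint _ _)] at this
  rw [show 4 * r - 4 * r ^ 2 = 1 - c ^ 2 by rw [hc]; ring]
  exact this

lemma exists_level (h : Wave g) {r : ℝ} (hr : 0 < r) (hr' : r < 1/2) :
    ∃ A : ℝ, 0 < A ∧ A + r < 1/2 ∧ g A = g (A + r) := by
  have hc : ContinuousOn (fun t => g (t + r) - g t) (Icc 0 (1/2 - r)) := by
    have := h.cont
    fun_prop
  have h0 : 0 < g (0 + r) - g 0 := by rw [h.zero, zero_add, sub_zero]; exact h.pos r hr hr'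
  have h1 : g ((1/2 - r) + r) - g (1/2 - r) < 0 := by
    rw [sub_add_cancel, h.half_zero]
    linarith [h.pos (1/2 - r) (by linarith) (by linarith)]
  obtain ⟨A, hA, hA0⟩ := intermediate_value_Icc' (by linarith) hc
    (show (0:ℝ) ∈ Icc ((fun t => g (t + r) - g t) (1/2 - r)) ((fun t => g (t + r) - g t) 0) from
      ⟨h1.le, h0.le⟩)
  refine ⟨A, ?_, ?_, ?_⟩
  · rcases hA.1.lt_or_eq with h' | h'
    · exact h'
    · rw [← h'] at hA0; simp only at hA0; linarith
  · rcases hA.2.lt_or_eq with h' | h'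
    · linarith
    · rw [h'] at hA0; simp only at hA0; linarith
  · simp only at hA0; linarith

lemma shift_integral (h : Wave g) {r : ℝ} (hr : 0 < r) (hr' : r < 1/2) :
    ∫ t in (0:ℝ)..1, |g (t + r) - g t| ≤ 8 * r * (1 - r) * ∫ t in (0:ℝ)..1, |g t| := by
  obtain ⟨A, hA, hB, he⟩ := h.exists_level hr hr'
  have hgc := h.cont
  have hint : ∀ a b : ℝ, IntervalIntegrable g volume a b := fun a b => hgc.intervalIntegrable a b
  have hlev := h.level hA hr hB he
  set φ : ℝ → ℝ := fun t => g (t + r) - g t with hφ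
  have hφc : Continuous φ := by fun_prop
  have hφper : Function.Periodic (fun t => |φ t|) (1/2) := by
    intro t
    simp only [hφ]
    rw [show t + 1/2 + r = (t + r) + 1/2 by ring, h.anti, h.anti, ← abs_neg]
    congr 1; ring
  have hgper : Function.Periodic (fun t => |g t|) (1/2) := by
    intro t
    simp only
    rw [h.anti, abs_neg]
  have hdouble : ∀ f : ℝ → ℝ, Continuous f → Function.Periodic f (1/2) →
      ∫ t in (0:ℝ)..1, f t = 2 * ∫ t in (0:ℝ)..(1/2), f t := by
    intro f hf hp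
    rw [← intervalIntegral.integral_add_adjacent_intervals (hf.intervalIntegrable 0 (1/2))
      (hf.intervalIntegrable (1/2) 1)]
    have := hp.intervalIntegral_add_eq (1/2) 0
    rw [zero_add, show (1:ℝ)/2 + 1/2 = 1 by norm_num] at this
    rw [this]; ring
  have e1 : ∫ t in (0:ℝ)..1, |φ t| = 2 * ∫ t in A..(A + 1/2), |φ t| := by
    rw [hdouble _ hφc.abs hφper]
    have := hφper.intervalIntegral_add_eq 0 A
    rw [zero_add] at this
    rw [this]
  have hneg : ∀ t ∈ Icc A (A + 1/2), φ t ≤ 0 := by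
    intro t ht
    simp only [hφ]
    by_cases h1 : t + r ≤ 1/2
    · have := h.shift_anti hA.le ht.1 hr.le h1
      linarith
    · push Not at h1
      by_cases h2 : t ≤ 1/2
      · have h3 := h.anti (t + r - 1/2)
        rw [sub_add_cancel] at h3
        have h4 := h.nonneg (t := t + r - 1/2) (by linarith) (by linarith)
        have h5 := h.nonneg (t := t) (by linarith) h2
        linarith
      · push Not at h2
        have h3 := h.anti (t - 1/2)
        have h4 := h.anti (t - 1/2 + r)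
        rw [sub_add_cancel] at h3
        rw [show t - 1/2 + r + 1/2 = t + r by ring] at h4
        have h5 := h.shift_anti (s := t - 1/2) (t := A) (r := r) (by linarith) (by linarith [ht.2])
          hr.le (by linarith)
        linarith
  have e2 : ∫ t in A..(A + 1/2), |φ t| = 2 * ∫ t in A..(A + r), g t := by
    have e3 : ∫ t in A..(A + 1/2), |φ t| = ∫ t in A..(A + 1/2), (g t - g (t + r)) := by
      refine intervalIntegral.integral_congr fun t ht => ?_
      rw [uIcc_of_le (by linarith)] at ht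
      rw [abs_of_nonpos (hneg t ht)]
      simp only [hφ]; ring
    rw [e3, intervalIntegral.integral_sub (hint _ _)
      ((by fun_prop : Continuous fun t => g (t + r)).intervalIntegrable _ _),
      intervalIntegral.integral_comp_add_right g r]
    have h1 : ∫ t in A..(A + 1/2), g t =
        (∫ t in A..(A + r), g t) + ∫ t in (A + r)..(A + 1/2), g t :=
      (intervalIntegral.integral_add_adjacent_intervals (hint _ _) (hint _ _)).symm
    have h2 : ∫ t in (A + r)..(A + 1/2 + r), g t =
        (∫ t in (A + r)..(A + 1/2), g t) + ∫ t in (A + 1/2)..(A + 1/2 + r), g t :=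
      (intervalIntegral.integral_add_adjacent_intervals (hint _ _) (hint _ _)).symm
    have h3 : ∫ t in (A + 1/2)..(A + 1/2 + r), g t = - ∫ t in A..(A + r), g t := by
      rw [show A + 1/2 + r = (A + r) + 1/2 by ring,
        ← intervalIntegral.integral_comp_add_right g (1/2), ← intervalIntegral.integral_neg]
      refine intervalIntegral.integral_congr fun t _ => ?_
      exact h.anti t
    rw [h1, h2, h3]; ring
  have e4 : ∫ t in (0:ℝ)..1, |g t| = 2 * ∫ t in (0:ℝ)..(1/2), g t := by
    rw [hdouble _ hgc.abs hgper]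
    congr 1
    refine intervalIntegral.integral_congr fun t ht => ?_
    rw [uIcc_of_le (by norm_num)] at ht
    exact abs_of_nonneg (h.nonneg ht.1 ht.2)
  change ∫ t in (0:ℝ)..1, |φ t| ≤ _
  rw [e1, e2, e4]
  nlinarith

end Wave

end Pool.Agent.H78Sprawl
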