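import Pool.Agent.H78Sprawl.Ratio
import Pool.Agent.H78Sprawl.Wave
import Pool.Agent.H78String.Arc

set_option autoImplicit false

open MeasureTheory Set Metric
open scoped Real

namespace Pool.Agent.H78Sprawl

open Pool.Agent.H78String

namespace Curve

variable {N : E2 → ℝ} {x : ℝ → E2}

lemma wave (h : Curve N x) (t₀ : ℝ) : Wave (fun t => det2 (x t₀) (x (t₀ + t))) where
  cont := continuous_det2 continuous_const (h.cont.comp (by fun_prop))
  anti := fun t => by
    rw [← add_assoc, h.half, det2_neg_right]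
  zero := by simp only [add_zero, det2_self]
  pos := fun t h0 h1 => h.pos _ _ (by linarith) (by linarith)
  conc := h.concaveOn_det t₀

lemma exists_parallel (h : Curve N x) (v : E2) : ∃ t₀ κ : ℝ, v = κ • x t₀ := by
  have hc : Continuous fun t => det2 (x t) v := continuous_det2 h.cont continuous_const
  obtain ⟨t₀, ht₀⟩ : ∃ t₀, det2 (x t₀) v = 0 := by
    have hanti : det2 (x (0 + 1/2)) v = - det2 (x 0) v := by rw [h.half, det2_neg_left]
    rcases le_total 0 (det2 (x 0) v) with h0 | h0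
    · have := intermediate_value_Icc' (by norm_num : (0:ℝ) ≤ 0 + 1/2) hc.continuousOn
        (show (0:ℝ) ∈ Icc (det2 (x (0 + 1/2)) v) (det2 (x 0) v) from ⟨by rw [hanti]; linarith, h0⟩)
      obtain ⟨t, _, ht⟩ := this
      exact ⟨t, ht⟩
    · have := intermediate_value_Icc (by norm_num : (0:ℝ) ≤ 0 + 1/2) hc.continuousOn
        (show (0:ℝ) ∈ Icc (det2 (x 0) v) (det2 (x (0 + 1/2)) v) from ⟨h0, by rw [hanti]; linarith⟩)
      obtain ⟨t, _, ht⟩ := this
      exact ⟨t, ht⟩
  have hD := h.pos t₀ (t₀ + 1/4) (by linarith) (by linarith)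
  refine ⟨t₀, det2 v (x (t₀ + 1/4)) / det2 (x t₀) (x (t₀ + 1/4)), ?_⟩
  have := expand' (v := v) hD.ne'
  rw [ht₀] at this
  simpa using this

lemma periodic_comp (h : Curve N x) {f : E2 → ℝ} : Function.Periodic (fun t => f (x t)) 1 := by
  intro t
  simp only [h.one]

lemma per_shift {f : ℝ → ℝ} (hf : Function.Periodic f 1) (a : ℝ) :
    ∫ t in (0:ℝ)..1, f t = ∫ t in (0:ℝ)..1, f (t + a) := by
  rw [intervalIntegral.integral_comp_add_right f a]
  have := hf.intervalIntegral_add_eq 0 a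
  rw [zero_add] at this
  rw [this, zero_add, add_comm 1 a]

/-- The key estimate for one linear functional. -/
lemma functional (h : Curve N x) (v : E2) {r : ℝ} (hr : 0 < r) (hr' : r < 1/2) :
    ∫ t in (0:ℝ)..1, |det2 (x (t + r) - x t) v| ≤
      8 * r * (1 - r) * ∫ t in (0:ℝ)..1, |det2 (x t) v| := by
  obtain ⟨t₀, κ, hv⟩ := h.exists_parallel v
  have hw := (h.wave t₀).shift_integral hr hr'
  have e1 : ∫ t in (0:ℝ)..1, |det2 (x t) v| =
      |κ| * ∫ t in (0:ℝ)..1, |det2 (x t₀) (x (t₀ + t))| := by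
    rw [per_shift (h.periodic_comp (f := fun z => |det2 z v|)) t₀,
      ← intervalIntegral.integral_const_mul]
    refine intervalIntegral.integral_congr fun t _ => ?_
    rw [hv, det2_smul_right, abs_mul, det2_swap, abs_neg, add_comm]
  have e2 : ∫ t in (0:ℝ)..1, |det2 (x (t + r) - x t) v| =
      |κ| * ∫ t in (0:ℝ)..1, |det2 (x t₀) (x (t₀ + (t + r))) - det2 (x t₀) (x (t₀ + t))| := by
    have hp : Function.Periodic (fun t => |det2 (x (t + r) - x t) v|) 1 := by
      intro t
      simp only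
      rw [show t + 1 + r = t + r + 1 by ring, h.one, h.one]
    rw [per_shift hp t₀, ← intervalIntegral.integral_const_mul]
    refine intervalIntegral.integral_congr fun t _ => ?_
    rw [hv, det2_smul_right, abs_mul, det2_sub_left, det2_swap, det2_swap (x (t + t₀)),
      ← abs_neg (-det2 (x t₀) (x (t + t₀ + r)) - _)]
    congr 2
    rw [show t + t₀ + r = t₀ + (t + r) by ring, show t + t₀ = t₀ + t by ring]
    ring
  rw [e1, e2]
  have := mul_le_mul_of_nonneg_left hw (abs_nonneg κ)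
  linarith

end Curve

/-! ### Polygonal majorants of a planar norm -/

section poly

variable (N : E2 → ℝ) (δ : ℝ)

noncomputable def aN (k : ℕ) : ℝ := N (dir (k * δ))

noncomputable def cN (j : ℕ) : ℝ :=
  (aN N δ (j + 2) + aN N δ j - 2 * Real.cos δ * aN N δ (j + 1)) / (2 * Real.sin δ)

noncomputable def Nn (n : ℕ) (z : E2) : ℝ :=
  ∑ j ∈ Finset.range n, cN N (π / n) j * |det2 z (dir (((j + 1 : ℕ) : ℝ) * (π / n)))|

end poly

lemma sum_window {F : ℕ → ℝ} {n : ℕ} (hF : ∀ j, F (j + n) = F j) (k : ℕ) :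
    ∑ j ∈ Finset.range n, F j = ∑ i ∈ Finset.range n, F (k + i) := by
  induction k with
  | zero => simp
  | succ k ih =>
    rw [ih]
    have h1 := Finset.sum_range_succ (fun i => F (k + i)) n
    have h2 := Finset.sum_range_succ' (fun i => F (k + i)) n
    rw [h1] at h2
    have h3 : F (k + n) = F k := hF k
    simp only [add_zero] at h2
    rw [h3] at h2
    have h4 : ∑ i ∈ Finset.range n, F (k + i) = ∑ i ∈ Finset.range n, F (k + (i + 1)) := by
      linarith
    rw [h4]
    refine Finset.sum_congr rfl fun i _ => ?_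
    congr 1; ring

lemma det2_dir (a b : ℝ) : det2 (dir a) (dir b) = Real.sin (b - a) := by
  rw [det2, dir_zero, dir_one, dir_zero, dir_one, Real.sin_sub]; ring

lemma dir_shift {n : ℕ} (hn : n ≠ 0) (k : ℕ) :
    dir (((k + n : ℕ) : ℝ) * (π / n)) = - dir ((k:ℝ) * (π / n)) := by
  rw [← dir_add_pi]
  congr 1
  push_cast
  field_simp

variable {N : E2 → ℝ}

lemma aN_shift (h : PNorm N) {n : ℕ} (hn : n ≠ 0) (k : ℕ) :
    aN N (π / n) (k + n) = aN N (π / n) k := by
  unfold aN
  rw [dir_shift hn, h.neg]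

lemma cN_shift (h : PNorm N) {n : ℕ} (hn : n ≠ 0) (k : ℕ) :
    cN N (π / n) (k + n) = cN N (π / n) k := by
  unfold cN
  rw [show k + n + 2 = (k + 2) + n by ring, show k + n + 1 = (k + 1) + n by ring,
    aN_shift h hn, aN_shift h hn, aN_shift h hn]

lemma cN_nonneg (h : PNorm N) {n : ℕ} (hn : 2 ≤ n) (j : ℕ) : 0 ≤ cN N (π / n) j := by
  have hn0 : (0:ℝ) < n := by positivity
  have hn2 : (2:ℝ) ≤ n := by exact_mod_cast hn
  have hδ : 0 < π / n := by positivity
  have hδ2 : π / n ≤ π / 2 := by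
    apply div_le_div_of_nonneg_left Real.pi_pos.le (by norm_num) hn2
  have hs : 0 < Real.sin (π / n) := Real.sin_pos_of_pos_of_lt_pi hδ (by linarith [Real.pi_pos])
  have hc : 0 ≤ Real.cos (π / n) := Real.cos_nonneg_of_mem_Icc ⟨by linarith [Real.pi_pos], hδ2⟩
  unfold cN aN
  apply div_nonneg _ (by positivity)
  have e : (2 * Real.cos (π / n)) • dir (((j + 1 : ℕ) : ℝ) * (π / n)) =
      dir (((j + 2 : ℕ) : ℝ) * (π / n)) + dir ((j : ℝ) * (π / n)) := by
    have e1 : ((j + 2 : ℕ) : ℝ) * (π / n) = ((j + 1 : ℕ) : ℝ) * (π / n) + π / n := by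
      push_cast; ring
    have e2 : (j : ℝ) * (π / n) = ((j + 1 : ℕ) : ℝ) * (π / n) - π / n := by
      push_cast; ring
    rw [e1, e2]
    apply ext2
    · rw [PiLp.smul_apply, PiLp.add_apply, dir_zero, dir_zero, dir_zero, Real.cos_add, Real.cos_sub,
        smul_eq_mul]; ring
    · rw [PiLp.smul_apply, PiLp.add_apply, dir_one, dir_one, dir_one, Real.sin_add, Real.sin_sub,
        smul_eq_mul]; ring
  have h1 := h.add_le (dir (((j + 2 : ℕ) : ℝ) * (π / n))) (dir ((j : ℝ) * (π / n)))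
  rw [← e, h.smul_nonneg (by positivity)] at h1
  linarith

lemma telescope (a : ℕ → ℝ) (s δ : ℝ) (n : ℕ) :
    ∑ i ∈ Finset.range n, (a (i + 2) + a i - 2 * Real.cos δ * a (i + 1)) *
      Real.sin (((i:ℝ) + 1) * δ + s) =
    (a (n + 1) * Real.sin ((n:ℝ) * δ + s) - a n * Real.sin (((n:ℝ) + 1) * δ + s)) -
    (a 1 * Real.sin s - a 0 * Real.sin (δ + s)) := by
  induction n with
  | zero => simp
  | succ n ih =>
    rw [Finset.sum_range_succ, ih]
    push_cast
    have e1 : ((n:ℝ) + 1 + 1) * δ + s = (((n:ℝ) + 1) * δ + s) + δ := by ring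
    have e2 : (n:ℝ) * δ + s = (((n:ℝ) + 1) * δ + s) - δ := by ring
    have e3 : Real.sin (((n:ℝ) + 1 + 1) * δ + s) + Real.sin ((n:ℝ) * δ + s) =
        2 * Real.cos δ * Real.sin (((n:ℝ) + 1) * δ + s) := by
      rw [e1, e2, Real.sin_add, Real.sin_sub]; ring
    linear_combination (a (n + 1)) * e3

/-- `Nn` is the norm which agrees with `N` on the directions `k π / n` and is linear in between. -/
lemma Nn_eq (h : PNorm N) {n : ℕ} (hn : 2 ≤ n) (k : ℕ) {α β : ℝ} (hα : 0 ≤ α) (hβ : 0 ≤ β) :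
    Nn N n (α • dir (k * (π / n)) + β • dir (((k + 1 : ℕ) : ℝ) * (π / n))) =
      α * aN N (π / n) k + β * aN N (π / n) (k + 1) := by
  have hn0 : n ≠ 0 := by omega
  have hn0' : (0:ℝ) < n := by positivity
  have hn2 : (2:ℝ) ≤ n := by exact_mod_cast hn
  have hδ : 0 < π / n := by positivity
  have hδn : n * (π / n) = π := by field_simp
  have hδ2 : π / n ≤ π / 2 := by
    apply div_le_div_of_nonneg_left Real.pi_pos.le (by norm_num) hn2
  have hs : 0 < Real.sin (π / n) := Real.sin_pos_of_pos_of_lt_pi hδ (by linarith [Real.pi_pos])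
  set δ := π / (n:ℝ) with hδdef
  set z := α • dir (k * δ) + β • dir (((k + 1 : ℕ) : ℝ) * δ) with hz
  have hwin : Nn N n z = ∑ i ∈ Finset.range n,
      cN N δ (k + i) * |det2 z (dir (((k + i + 1 : ℕ) : ℝ) * δ))| := by
    unfold Nn
    rw [sum_window (F := fun j => cN N (π / n) j * |det2 z (dir (((j + 1 : ℕ) : ℝ) * (π / n)))|) _ k]
    intro j
    rw [cN_shift h hn0, show j + n + 1 = (j + 1) + n by ring, dir_shift hn0, det2_neg_right, abs_neg]
  have hterm : ∀ i ∈ Finset.range n, cN N δ (k + i) * |det2 z (dir (((k + i + 1 : ℕ) : ℝ) * δ))| =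
      (α / (2 * Real.sin δ)) * ((aN N δ (k + (i + 2)) + aN N δ (k + i) -
        2 * Real.cos δ * aN N δ (k + (i + 1))) * Real.sin (((i:ℝ) + 1) * δ + 0)) +
      (β / (2 * Real.sin δ)) * ((aN N δ (k + (i + 2)) + aN N δ (k + i) -
        2 * Real.cos δ * aN N δ (k + (i + 1))) * Real.sin (((i:ℝ) + 1) * δ + (-δ))) := by
    intro i hi
    have hi' : (i:ℝ) + 1 ≤ n := by exact_mod_cast Finset.mem_range.1 hi
    have e1 : det2 z (dir (((k + i + 1 : ℕ) : ℝ) * δ)) =
        α * Real.sin (((i:ℝ) + 1) * δ + 0) + β * Real.sin (((i:ℝ) + 1) * δ + (-δ)) := by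
      rw [hz, det2_add_left, det2_smul_left, det2_smul_left, det2_dir, det2_dir]
      congr 3
      · push_cast; ring
      · push_cast; ring
    have p1 : 0 ≤ Real.sin (((i:ℝ) + 1) * δ + 0) := by
      apply Real.sin_nonneg_of_nonneg_of_le_pi
      · positivity
      · rw [add_zero, ← hδn]; gcongr
    have p2 : 0 ≤ Real.sin (((i:ℝ) + 1) * δ + (-δ)) := by
      apply Real.sin_nonneg_of_nonneg_of_le_pi
      · have : 0 ≤ (i:ℝ) * δ := by positivity
        linarith
      · have : ((i:ℝ) + 1) * δ ≤ n * δ := by gcongr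
        linarith
    rw [e1, abs_of_nonneg (by positivity)]
    unfold cN
    rw [show k + (i + 2) = k + i + 2 by ring, show k + (i + 1) = k + i + 1 by ring]
    field_simp
  rw [hwin, Finset.sum_congr rfl hterm, Finset.sum_add_distrib, ← Finset.mul_sum, ← Finset.mul_sum,
    telescope (fun i => aN N δ (k + i)) 0 δ n, telescope (fun i => aN N δ (k + i)) (-δ) δ n]
  have a1 : aN N δ (k + n) = aN N δ k := aN_shift h hn0 k
  have a2 : aN N δ (k + (n + 1)) = aN N δ (k + 1) := by
    rw [show k + (n + 1) = (k + 1) + n by ring]; exact aN_shift h hn0 (k + 1)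
  have s1 : Real.sin ((n:ℝ) * δ + 0) = 0 := by rw [hδn, add_zero, Real.sin_pi]
  have s2 : Real.sin (((n:ℝ) + 1) * δ + 0) = - Real.sin δ := by
    rw [add_mul, hδn, one_mul, add_zero, add_comm, Real.sin_add_pi]
  have s3 : Real.sin ((n:ℝ) * δ + (-δ)) = Real.sin δ := by
    rw [hδn, ← sub_eq_add_neg, Real.sin_pi_sub]
  have s4 : Real.sin (((n:ℝ) + 1) * δ + (-δ)) = 0 := by
    rw [add_mul, hδn, one_mul, add_neg_cancel_right, Real.sin_pi]
  rw [a1, a2, s1, s2, s3, s4, Real.sin_zero, Real.sin_neg, add_neg_cancel, Real.sin_zero, add_zero,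
    add_zero]
  field_simp
  ring

end Pool.Agent.H78Sprawl
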