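import Pool.Agent.H78Sprawl.Upper

set_option autoImplicit false

open MeasureTheory Set Metric Filter
open scoped Real Topology

namespace Pool.Agent.H78Sprawl

open Pool.Agent.H78String

variable {N : E2 → ℝ}

lemma norm_dir_sub (a b : ℝ) : ‖dir a - dir b‖ ≤ |a - b| := by
  rw [← sq_le_sq₀ (norm_nonneg _) (abs_nonneg _), norm_sq_eq, sq_abs, PiLp.sub_apply,
    PiLp.sub_apply, dir_zero, dir_zero, dir_one, dir_one]
  have h1 := Real.one_sub_sq_div_two_le_cos (x := a - b)
  rw [Real.cos_sub] at h1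
  have h2 := Real.sin_sq_add_cos_sq a
  have h3 := Real.sin_sq_add_cos_sq b
  nlinarith

lemma eq_combo (z : E2) : z = z 0 • dir 0 + z 1 • dir (π / 2) := by
  apply ext2
  · rw [PiLp.add_apply, PiLp.smul_apply, PiLp.smul_apply, dir_zero, dir_zero]; simp
  · rw [PiLp.add_apply, PiLp.smul_apply, PiLp.smul_apply, dir_one, dir_one]; simp

lemma abs_coord_le (z : E2) (i : Fin 2) : |z i| ≤ ‖z‖ := by
  have := PiLp.norm_apply_le z i
  simpa using this

lemma PNorm.exists_bound (h : PNorm N) : ∃ M, 0 ≤ M ∧ ∀ z, N z ≤ M * ‖z‖ := by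
  refine ⟨N (dir 0) + N (dir (π / 2)), add_nonneg (h.nonneg _) (h.nonneg _), fun z => ?_⟩
  conv_lhs => rw [eq_combo z]
  refine (h.add_le _ _).trans ?_
  rw [h.smul, h.smul, add_mul]
  have h0 := abs_coord_le z 0
  have h1 := abs_coord_le z 1
  have := mul_le_mul_of_nonneg_right h0 (h.nonneg (dir 0))
  have := mul_le_mul_of_nonneg_right h1 (h.nonneg (dir (π / 2)))
  linarith

lemma exists_polar_nonneg (z : E2) : ∃ φ : ℝ, 0 ≤ φ ∧ z = ‖z‖ • dir φ := by
  obtain ⟨φ, hφ⟩ := exists_polar z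
  obtain ⟨m, hm⟩ := exists_nat_ge (-φ / (2 * π))
  refine ⟨φ + m * (2 * π), ?_, ?_⟩
  · rw [div_le_iff₀ (by positivity)] at hm
    linarith
  · have : dir (φ + m * (2 * π)) = dir φ := by
      apply ext2
      · rw [dir_zero, dir_zero, Real.cos_add_nat_mul_two_pi]
      · rw [dir_one, dir_one, Real.sin_add_nat_mul_two_pi]
    rw [this]
    exact hφ

lemma Nn_bounds (h : PNorm N) {n : ℕ} (hn : 2 ≤ n) {M : ℝ} (hM0 : 0 ≤ M)
    (hM : ∀ z, N z ≤ M * ‖z‖) (z : E2) :
    N z ≤ Nn N n z ∧ Nn N n z ≤ (N z + M * ‖z‖ * (π / n)) / Real.cos (π / n / 2) := by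
  have hn0 : n ≠ 0 := by omega
  have hn0' : (0:ℝ) < n := by positivity
  have hn2 : (2:ℝ) ≤ n := by exact_mod_cast hn
  have hδ : 0 < π / n := by positivity
  have hδ2 : π / n ≤ π / 2 := by
    apply div_le_div_of_nonneg_left Real.pi_pos.le (by norm_num) hn2
  have hs : 0 < Real.sin (π / n) := Real.sin_pos_of_pos_of_lt_pi hδ (by linarith [Real.pi_pos])
  have hNnk : ∀ (k : ℕ) {α β : ℝ}, 0 ≤ α → 0 ≤ β →
      Nn N n (α • dir (k * (π / n)) + β • dir (((k + 1 : ℕ) : ℝ) * (π / n))) =
      α * aN N (π / n) k + β * aN N (π / n) (k + 1) := fun k _ _ h1 h2 => Nn_eq h hn k h1 h2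
  obtain ⟨δ, hδdef⟩ : ∃ δ, δ = π / (n:ℝ) := ⟨_, rfl⟩
  have hcos : 0 < Real.cos (π / n / 2) :=
    Real.cos_pos_of_mem_Ioo ⟨by linarith [Real.pi_pos], by linarith [Real.pi_pos]⟩
  rw [← hδdef] at hδ hδ2 hs hcos hNnk ⊢
  obtain ⟨φ, hφ0, hφ⟩ := exists_polar_nonneg z
  set k := ⌊φ / δ⌋₊ with hk
  have hk1 : (k:ℝ) * δ ≤ φ := by
    have := Nat.floor_le (a := φ / δ) (by positivity)
    rwa [le_div_iff₀ hδ] at this
  have hk2 : φ < ((k + 1 : ℕ) : ℝ) * δ := by
    have := Nat.lt_floor_add_one (φ / δ)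
    rw [div_lt_iff₀ hδ] at this
    push_cast
    exact this
  have hdir := dir_between ((k:ℝ) * δ) φ (((k + 1 : ℕ) : ℝ) * δ)
  have e1 : ((k + 1 : ℕ) : ℝ) * δ - (k:ℝ) * δ = δ := by push_cast; ring
  rw [e1] at hdir
  obtain ⟨s, hs'⟩ : ∃ s, s = φ - (k:ℝ) * δ := ⟨_, rfl⟩
  have hs0 : 0 ≤ s := by rw [hs']; linarith
  have hs1 : s ≤ δ := by rw [hs']; push_cast at hk2; linarith
  have e2 : ((k + 1 : ℕ) : ℝ) * δ - φ = δ - s := by rw [hs']; push_cast; ring
  rw [e2, ← hs'] at hdir
  have p1 : 0 ≤ Real.sin (δ - s) :=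
    Real.sin_nonneg_of_nonneg_of_le_pi (by linarith) (by linarith [Real.pi_pos])
  have p2 : 0 ≤ Real.sin s :=
    Real.sin_nonneg_of_nonneg_of_le_pi hs0 (by linarith [Real.pi_pos])
  set α := ‖z‖ * Real.sin (δ - s) / Real.sin δ with hα
  set β := ‖z‖ * Real.sin s / Real.sin δ with hβ
  have hα0 : 0 ≤ α := by positivity
  have hβ0 : 0 ≤ β := by positivity
  have hz : z = α • dir ((k:ℝ) * δ) + β • dir (((k + 1 : ℕ) : ℝ) * δ) := by
    have h1 : Real.sin δ • z = Real.sin δ • (α • dir ((k:ℝ) * δ) +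
        β • dir (((k + 1 : ℕ) : ℝ) * δ)) := by
      conv_lhs => rw [hφ]
      rw [smul_comm, hdir, hα, hβ, smul_add, smul_add, smul_smul, smul_smul, smul_smul, smul_smul]
      congr 2 <;> field_simp
    have := congrArg (fun w => (Real.sin δ)⁻¹ • w) h1
    simpa only [smul_smul, inv_mul_cancel₀ hs.ne', one_smul] using this
  have hval : Nn N n z = α * aN N δ k + β * aN N δ (k + 1) := by
    conv_lhs => rw [hz]
    exact hNnk k hα0 hβ0
  constructor
  · rw [hval]
    conv_lhs => rw [hz]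
    refine (h.add_le _ _).trans ?_
    rw [h.smul_nonneg hα0, h.smul_nonneg hβ0]
    rfl
  · have b1 : aN N δ k ≤ N (dir φ) + M * δ := by
      unfold aN
      have h1 := h.add_le (dir φ) (dir ((k:ℝ) * δ) - dir φ)
      rw [add_sub_cancel] at h1
      have h2 := hM (dir ((k:ℝ) * δ) - dir φ)
      have h3 := norm_dir_sub ((k:ℝ) * δ) φ
      have h4 : |(k:ℝ) * δ - φ| ≤ δ := by
        rw [abs_le]; push_cast at hk2; constructor <;> linarith
      have h5 := mul_le_mul_of_nonneg_left (h3.trans h4) hM0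
      linarith
    have b2 : aN N δ (k + 1) ≤ N (dir φ) + M * δ := by
      unfold aN
      have h1 := h.add_le (dir φ) (dir (((k + 1 : ℕ) : ℝ) * δ) - dir φ)
      rw [add_sub_cancel] at h1
      have h2 := hM (dir (((k + 1 : ℕ) : ℝ) * δ) - dir φ)
      have h3 := norm_dir_sub (((k + 1 : ℕ) : ℝ) * δ) φ
      have h4 : |((k + 1 : ℕ) : ℝ) * δ - φ| ≤ δ := by
        rw [abs_le]; push_cast at hk2 ⊢; constructor <;> linarith
      have h5 := mul_le_mul_of_nonneg_left (h3.trans h4) hM0
      linarith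
    have hNz : N z = ‖z‖ * N (dir φ) := by
      conv_lhs => rw [hφ]
      exact h.smul_nonneg (norm_nonneg _) _
    have b3 : α + β ≤ ‖z‖ / Real.cos (δ / 2) := by
      rw [hα, hβ, ← add_div, ← mul_add, div_le_div_iff₀ hs hcos]
      have h1 : Real.sin (δ - s) + Real.sin s = 2 * Real.sin (δ / 2) * Real.cos (δ / 2 - s) := by
        have h1a : Real.sin (δ - s) = Real.sin (δ / 2) * Real.cos (δ / 2 - s) +
            Real.cos (δ / 2) * Real.sin (δ / 2 - s) := by rw [← Real.sin_add]; congr 1; ring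
        have h1b : Real.sin s = Real.sin (δ / 2) * Real.cos (δ / 2 - s) -
            Real.cos (δ / 2) * Real.sin (δ / 2 - s) := by rw [← Real.sin_sub]; congr 1; ring
        linarith
      have h2 : Real.sin δ = 2 * Real.sin (δ / 2) * Real.cos (δ / 2) := by
        rw [← Real.sin_two_mul]; congr 1; ring
      rw [h1, h2]
      have h3 : 0 ≤ Real.sin (δ / 2) :=
        Real.sin_nonneg_of_nonneg_of_le_pi (by linarith) (by linarith [Real.pi_pos])
      have h4 := Real.cos_le_one (δ / 2 - s)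
      have h5 : ‖z‖ * (2 * Real.sin (δ / 2) * Real.cos (δ / 2 - s)) * Real.cos (δ / 2) =
        (‖z‖ * (2 * Real.sin (δ / 2)) * Real.cos (δ / 2)) * Real.cos (δ / 2 - s) := by ring
      rw [h5]
      have h6 : 0 ≤ ‖z‖ * (2 * Real.sin (δ / 2)) * Real.cos (δ / 2) := by positivity
      nlinarith
    have hpos : 0 ≤ N (dir φ) + M * δ := add_nonneg (h.nonneg _) (by positivity)
    calc Nn N n z = α * aN N δ k + β * aN N δ (k + 1) := hval
      _ ≤ α * (N (dir φ) + M * δ) + β * (N (dir φ) + M * δ) := by gcongr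
      _ = (α + β) * (N (dir φ) + M * δ) := by ring
      _ ≤ ‖z‖ / Real.cos (δ / 2) * (N (dir φ) + M * δ) := by gcongr
      _ = (N z + M * ‖z‖ * δ) / Real.cos (δ / 2) := by rw [hNz]; ring

lemma continuous_Nn (n : ℕ) : Continuous (Nn N n) := by
  unfold Nn
  refine continuous_finsetSum _ fun j _ => ?_
  exact continuous_const.mul (continuous_det2 continuous_id continuous_const).abs

namespace Curve

variable {x : ℝ → E2}

lemma upper_n (h : Curve N x) {n : ℕ} (hn : 2 ≤ n) {r : ℝ} (hr : 0 < r) (hr' : r < 1/2) :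
    ∫ t in (0:ℝ)..1, Nn N n (x (t + r) - x t) ≤
      8 * r * (1 - r) * ∫ t in (0:ℝ)..1, Nn N n (x t) := by
  have hx := h.cont
  have hc1 : ∀ v : E2, Continuous fun t => |det2 (x (t + r) - x t) v| := fun v =>
    (continuous_det2 (by fun_prop) continuous_const).abs
  have hc2 : ∀ v : E2, Continuous fun t => |det2 (x t) v| := fun v =>
    (continuous_det2 hx continuous_const).abs
  unfold Nn
  have hd1 : ∀ (c : ℝ) (v : E2), IntervalIntegrable (fun t => c * |det2 (x (t + r) - x t) v|)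
      volume 0 1 := fun c v => (continuous_const.mul (hc1 v)).intervalIntegrable _ _
  have hd2 : ∀ (c : ℝ) (v : E2), IntervalIntegrable (fun t => c * |det2 (x t) v|)
      volume 0 1 := fun c v => (continuous_const.mul (hc2 v)).intervalIntegrable _ _
  rw [intervalIntegral.integral_finsetSum (fun j _ => hd1 _ _),
    intervalIntegral.integral_finsetSum (fun j _ => hd2 _ _), Finset.mul_sum]
  refine Finset.sum_le_sum fun j _ => ?_
  rw [intervalIntegral.integral_const_mul, intervalIntegral.integral_const_mul]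
  have h1 := mul_le_mul_of_nonneg_left (h.functional (dir (((j + 1 : ℕ) : ℝ) * (π / n))) hr hr')
    (cN_nonneg h.norm hn j)
  linarith

lemma upper_r (h : Curve N x) {r : ℝ} (hr : 0 < r) (hr' : r < 1/2) :
    ∫ t in (0:ℝ)..1, N (x (t + r) - x t) ≤ 8 * r * (1 - r) := by
  obtain ⟨M, hM0, hM⟩ := h.norm.exists_bound
  have hx := h.cont
  obtain ⟨R, hR⟩ := (isCompact_Icc (a := (0:ℝ)) (b := 1)).exists_bound_of_continuousOn
    hx.continuousOn
  have hNc := h.norm.cont
  have hkey : ∀ n : ℕ, 2 ≤ n → ∫ t in (0:ℝ)..1, N (x (t + r) - x t) ≤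
      8 * r * (1 - r) * ((1 + M * R * (π / n)) / Real.cos (π / n / 2)) := by
    intro n hn
    have hn0' : (0:ℝ) < n := by positivity
    have hn2 : (2:ℝ) ≤ n := by exact_mod_cast hn
    have hδ : 0 < π / n := by positivity
    have hδ2 : π / n ≤ π / 2 := by
      apply div_le_div_of_nonneg_left Real.pi_pos.le (by norm_num) hn2
    have hcos : 0 < Real.cos (π / n / 2) :=
      Real.cos_pos_of_mem_Ioo ⟨by linarith [Real.pi_pos], by linarith [Real.pi_pos]⟩
    have hNnc : Continuous (Nn N n) := continuous_Nn n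
    have h1 : ∫ t in (0:ℝ)..1, N (x (t + r) - x t) ≤
        ∫ t in (0:ℝ)..1, Nn N n (x (t + r) - x t) := by
      refine intervalIntegral.integral_mono_on (by norm_num)
        ((by fun_prop : Continuous fun t => N (x (t + r) - x t)).intervalIntegrable _ _)
        ((by fun_prop : Continuous fun t => Nn N n (x (t + r) - x t)).intervalIntegrable _ _) ?_
      intro t _
      exact (Nn_bounds h.norm hn hM0 hM _).1
    have h2 : ∫ t in (0:ℝ)..1, Nn N n (x t) ≤
        ∫ _t in (0:ℝ)..1, ((1 + M * R * (π / n)) / Real.cos (π / n / 2)) := by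
      refine intervalIntegral.integral_mono_on (by norm_num)
        ((by fun_prop : Continuous fun t => Nn N n (x t)).intervalIntegrable _ _)
        (continuous_const.intervalIntegrable _ _) ?_
      intro t ht
      refine (Nn_bounds h.norm hn hM0 hM _).2.trans ?_
      rw [h.unit]
      have := hR t ht
      gcongr
    rw [intervalIntegral.integral_const, sub_zero, one_smul] at h2
    have h3 : 0 ≤ 8 * r * (1 - r) := by
      have : 0 < 1 - r := by linarith
      positivity
    exact h1.trans ((h.upper_n hn hr hr').trans (mul_le_mul_of_nonneg_left h2 h3))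
  have hlim0 : Tendsto (fun n : ℕ => π / (n:ℝ)) atTop (𝓝 0) :=
    tendsto_const_div_atTop_nhds_zero_nat π
  have hlim : Tendsto (fun n : ℕ => 8 * r * (1 - r) *
      ((1 + M * R * (π / n)) / Real.cos (π / n / 2))) atTop (𝓝 (8 * r * (1 - r))) := by
    have hF : ContinuousAt (fun y : ℝ => 8 * r * (1 - r) * ((1 + M * R * y) / Real.cos (y / 2))) 0 := by
      refine ContinuousAt.mul continuousAt_const (ContinuousAt.div (by fun_prop) (by fun_prop) ?_)
      simp
    have := hF.tendsto.comp hlim0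
    simp only [mul_zero, add_zero, zero_div, Real.cos_zero, div_one, mul_one] at this
    exact this
  refine ge_of_tendsto hlim ?_
  filter_upwards [eventually_ge_atTop 2] with n hn using hkey n hn

lemma flip_r (h : Curve N x) (r : ℝ) :
    ∫ t in (0:ℝ)..1, N (x (t + (1 - r)) - x t) = ∫ t in (0:ℝ)..1, N (x (t + r) - x t) := by
  have hp : Function.Periodic (fun t => N (x (t + (1 - r)) - x t)) 1 := by
    intro t
    simp only
    rw [show t + 1 + (1 - r) = t + (1 - r) + 1 by ring, h.one, h.one]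
  rw [per_shift hp r]
  refine intervalIntegral.integral_congr fun t _ => ?_
  rw [show t + r + (1 - r) = t + 1 by ring, h.one, ← h.norm.neg, neg_sub]

/-- `E ≤ 4/3`. -/
theorem upper (h : Curve N x) :
    ∫ r in (0:ℝ)..1, ∫ t in (0:ℝ)..1, N (x (t + r) - x t) ≤ 4 / 3 := by
  have hx := h.cont
  have hNc := h.norm.cont
  have hc : Continuous fun r => ∫ t in (0:ℝ)..1, N (x (t + r) - x t) := by
    apply intervalIntegral.continuous_parametric_intervalIntegral_of_continuous'
    fun_prop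
  have h1 : ∫ r in (0:ℝ)..(1/2), ∫ t in (0:ℝ)..1, N (x (t + r) - x t) ≤
      ∫ r in (0:ℝ)..(1/2), 8 * r * (1 - r) := by
    refine intervalIntegral.integral_mono_on_of_le_Ioo (by norm_num) (hc.intervalIntegrable _ _)
      ((by fun_prop : Continuous fun r : ℝ => 8 * r * (1 - r)).intervalIntegrable _ _) ?_
    intro r hr
    exact h.upper_r hr.1 hr.2
  have h2 : ∫ r in (1/2:ℝ)..1, ∫ t in (0:ℝ)..1, N (x (t + r) - x t) =
      ∫ r in (0:ℝ)..(1/2), ∫ t in (0:ℝ)..1, N (x (t + r) - x t) := by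
    have := intervalIntegral.integral_comp_sub_left
      (fun r => ∫ t in (0:ℝ)..1, N (x (t + r) - x t)) (a := 0) (b := 1/2) 1
    rw [sub_zero, show (1:ℝ) - 1/2 = 1/2 by norm_num] at this
    rw [← this]
    refine intervalIntegral.integral_congr fun r _ => ?_
    exact h.flip_r r
  have h3 : ∫ r in (0:ℝ)..(1/2), 8 * r * (1 - r) = 2 / 3 := by
    have e : ∀ r : ℝ, 8 * r * (1 - r) = 8 * r - 8 * r ^ 2 := fun r => by ring
    simp_rw [e]
    rw [intervalIntegral.integral_sub ((by fun_prop : Continuous fun r : ℝ => 8 * r).intervalIntegrable _ _)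
      ((by fun_prop : Continuous fun r : ℝ => 8 * r ^ 2).intervalIntegrable _ _),
      intervalIntegral.integral_const_mul, intervalIntegral.integral_const_mul, integral_id,
      integral_pow]
    norm_num
  rw [← intervalIntegral.integral_add_adjacent_intervals (hc.intervalIntegrable 0 (1/2))
    (hc.intervalIntegrable (1/2) 1), h2]
  linarith

end Curve

end Pool.Agent.H78Sprawl
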